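import Mathlib

/-! # GNS construction for positive definite functions on `ℤ` -/

namespace Pool.Agent.V11241.GNSZ

open Set Topology Filter
open scoped InnerProductSpace ComplexConjugate

/-- The sesquilinear form attached to `φ`. -/
noncomputable def form (φ : ℤ → ℂ) (u v : ℤ →₀ ℂ) : ℂ :=
  u.sum fun m a => v.sum fun n b => conj a * b * φ (n - m)

theorem form_add_left (φ : ℤ → ℂ) (u v w : ℤ →₀ ℂ) :
    form φ (u + v) w = form φ u w + form φ v w := by
  unfold form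
  rw [Finsupp.sum_add_index']
  · intro m; simp
  · intro m a b
    rw [← Finsupp.sum_add]
    refine Finsupp.sum_congr fun n _ => ?_
    rw [map_add]; ring

theorem form_smul_left (φ : ℤ → ℂ) (c : ℂ) (u w : ℤ →₀ ℂ) :
    form φ (c • u) w = conj c * form φ u w := by
  unfold form
  rw [Finsupp.sum_smul_index (by intro m; simp), Finsupp.mul_sum]
  refine Finsupp.sum_congr fun n _ => ?_
  rw [Finsupp.mul_sum]
  refine Finsupp.sum_congr fun n _ => ?_
  rw [map_mul]; ring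

theorem form_conj (φ : ℤ → ℂ) (h : ∀ n, φ (-n) = conj (φ n)) (u v : ℤ →₀ ℂ) :
    conj (form φ v u) = form φ u v := by
  unfold form
  rw [Finsupp.sum_comm, map_finsuppSum]
  refine Finsupp.sum_congr fun n _ => ?_
  rw [map_finsuppSum]
  refine Finsupp.sum_congr fun m _ => ?_
  rw [map_mul, map_mul, Complex.conj_conj, ← h, neg_sub]
  ring

theorem form_single (φ : ℤ → ℂ) (m n : ℤ) (a b : ℂ) :
    form φ (Finsupp.single m a) (Finsupp.single n b) = conj a * b * φ (n - m) := by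
  unfold form
  rw [Finsupp.sum_single_index (by simp), Finsupp.sum_single_index (by simp)]

/-- Normalised positive definite functions. -/
structure PD (φ : ℤ → ℂ) : Prop where
  one : φ 0 = 1
  symm : ∀ n, φ (-n) = conj (φ n)
  nonneg : ∀ u : ℤ →₀ ℂ, 0 ≤ (form φ u u).re

/-- The space. -/
def V (φ : ℤ → ℂ) : Type := (fun _ => ℤ →₀ ℂ) φ

noncomputable instance (φ : ℤ → ℂ) : AddCommGroup (V φ) := inferInstanceAs (AddCommGroup (ℤ →₀ ℂ))
noncomputable instance (φ : ℤ → ℂ) : Module ℂ (V φ) := inferInstanceAs (Module ℂ (ℤ →₀ ℂ))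

@[instance_reducible]
noncomputable def preCore (φ : ℤ → ℂ) (h : PD φ) : PreInnerProductSpace.Core ℂ (V φ) where
  inner u v := form φ u v
  conj_inner_symm u v := form_conj φ h.symm u v
  re_inner_nonneg u := h.nonneg u
  add_left u v w := form_add_left φ u v w
  smul_left u v r := form_smul_left φ r u v

noncomputable instance (φ : ℤ → ℂ) [h : Fact (PD φ)] : SeminormedAddCommGroup (V φ) :=
  @InnerProductSpace.Core.toSeminormedAddCommGroup ℂ (V φ) _ _ _ (preCore φ h.out)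

noncomputable instance (φ : ℤ → ℂ) [h : Fact (PD φ)] : InnerProductSpace ℂ (V φ) :=
  InnerProductSpace.ofCore (preCore φ h.out)

/-- basis vectors -/
noncomputable def e (φ : ℤ → ℂ) (n : ℤ) : V φ := (Finsupp.single n (1 : ℂ) : ℤ →₀ ℂ)

theorem inner_eq (φ : ℤ → ℂ) [h : Fact (PD φ)] (x y : V φ) : ⟪x, y⟫_ℂ = form φ x y := rfl

theorem inner_e (φ : ℤ → ℂ) [h : Fact (PD φ)] (m n : ℤ) : ⟪e φ m, e φ n⟫_ℂ = φ (n - m) := by
  change form φ (Finsupp.single m 1) (Finsupp.single n 1) = _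
  rw [form_single]; simp

/-- shift by `k` as a linear equivalence -/
noncomputable def sh (φ : ℤ → ℂ) (k : ℤ) : V φ ≃ₗ[ℂ] V φ :=
  (Finsupp.domLCongr (Equiv.addRight k) : (ℤ →₀ ℂ) ≃ₗ[ℂ] (ℤ →₀ ℂ))

theorem sh_e (φ : ℤ → ℂ) (k n : ℤ) : sh φ k (e φ n) = e φ (n + k) := by
  change (Finsupp.domLCongr (Equiv.addRight k) : (ℤ →₀ ℂ) ≃ₗ[ℂ] (ℤ →₀ ℂ)) (Finsupp.single n 1) = _
  rw [Finsupp.domLCongr_single]; rfl

theorem form_sh (φ : ℤ → ℂ) (k : ℤ) (u v : ℤ →₀ ℂ) :
    form φ (Finsupp.equivMapDomain (Equiv.addRight k) u)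
      (Finsupp.equivMapDomain (Equiv.addRight k) v) = form φ u v := by
  unfold form
  rw [Finsupp.equivMapDomain_eq_mapDomain, Finsupp.equivMapDomain_eq_mapDomain,
    Finsupp.sum_mapDomain_index_inj (Equiv.addRight k).injective]
  refine Finsupp.sum_congr fun m _ => ?_
  rw [Finsupp.sum_mapDomain_index_inj (Equiv.addRight k).injective]
  refine Finsupp.sum_congr fun n _ => ?_
  simp

/-- shift as a linear isometry equivalence -/
noncomputable def shI (φ : ℤ → ℂ) [Fact (PD φ)] (k : ℤ) : V φ ≃ₗᵢ[ℂ] V φ :=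
  (sh φ k).isometryOfInner (fun x y => form_sh φ k x y)

abbrev Hs (φ : ℤ → ℂ) [Fact (PD φ)] : Type := UniformSpace.Completion (V φ)

/-- extension to the completion -/
noncomputable def T (φ : ℤ → ℂ) [Fact (PD φ)] (f : V φ ≃ₗᵢ[ℂ] V φ) : Hs φ →L[ℂ] Hs φ :=
  (f.toContinuousLinearEquiv : V φ →L[ℂ] V φ).completion

theorem T_coe (φ : ℤ → ℂ) [Fact (PD φ)] (f : V φ ≃ₗᵢ[ℂ] V φ) (x : V φ) :
    T φ f (x : Hs φ) = ((f x : V φ) : Hs φ) := by
  unfold T
  rw [ContinuousLinearMap.completion_apply_coe]; rfl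

theorem T_symm (φ : ℤ → ℂ) [Fact (PD φ)] (f g : V φ ≃ₗᵢ[ℂ] V φ) (h : ∀ x, f (g x) = x)
    (x : Hs φ) : T φ f (T φ g x) = x := by
  induction x using UniformSpace.Completion.induction_on with
  | hp => exact isClosed_eq (by fun_prop) continuous_id
  | ih x => rw [T_coe, T_coe, h]

theorem T_norm (φ : ℤ → ℂ) [Fact (PD φ)] (f : V φ ≃ₗᵢ[ℂ] V φ) (x : Hs φ) : ‖T φ f x‖ = ‖x‖ := by
  induction x using UniformSpace.Completion.induction_on with
  | hp => exact isClosed_eq (by fun_prop) continuous_norm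
  | ih x => rw [T_coe, UniformSpace.Completion.norm_coe, UniformSpace.Completion.norm_coe,
      f.norm_map]

/-- the unitary on the completion -/
noncomputable def Un (φ : ℤ → ℂ) [Fact (PD φ)] : Hs φ ≃ₗᵢ[ℂ] Hs φ where
  toFun := T φ (shI φ 1)
  invFun := T φ (shI φ 1).symm
  map_add' := map_add _
  map_smul' := map_smul _
  left_inv := T_symm φ _ _ (fun x => (shI φ 1).symm_apply_apply x)
  right_inv := T_symm φ _ _ (fun x => (shI φ 1).apply_symm_apply x)
  norm_map' := T_norm φ _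

theorem Un_e (φ : ℤ → ℂ) [Fact (PD φ)] (n : ℤ) :
    Un φ ((e φ n : V φ) : Hs φ) = ((e φ (n + 1) : V φ) : Hs φ) := by
  change T φ (shI φ 1) ((e φ n : V φ) : Hs φ) = _
  rw [T_coe]
  exact congrArg _ (sh_e φ 1 n)

theorem Un_zpow_e (φ : ℤ → ℂ) [Fact (PD φ)] (n : ℤ) :
    (Un φ ^ n) ((e φ 0 : V φ) : Hs φ) = ((e φ n : V φ) : Hs φ) := by
  induction n with
  | zero => simp
  | succ n ih =>
    rw [add_comm, zpow_add, zpow_one]
    show Un φ ((Un φ ^ (n : ℤ)) _) = _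
    rw [ih, Un_e, add_comm]
  | pred n ih =>
    rw [sub_eq_add_neg, add_comm, zpow_add, zpow_neg_one]
    show (Un φ).symm ((Un φ ^ (-(n : ℤ))) _) = _
    rw [ih, LinearIsometryEquiv.symm_apply_eq, Un_e]
    congr 2
    ring

/-- The GNS theorem for `ℤ`. -/
theorem exists_unitary (φ : ℤ → ℂ) (h : PD φ) :
    ∃ (H : Type) (_ : NormedAddCommGroup H) (_ : InnerProductSpace ℂ H) (_ : CompleteSpace H)
      (U : H ≃ₗᵢ[ℂ] H) (x : H), ∀ m n : ℤ, ⟪(U ^ m) x, (U ^ n) x⟫_ℂ = φ (n - m) := by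
  haveI : Fact (PD φ) := ⟨h⟩
  refine ⟨Hs φ, inferInstance, inferInstance, inferInstance, Un φ, ((e φ 0 : V φ) : Hs φ), ?_⟩
  intro m n
  rw [Un_zpow_e, Un_zpow_e, UniformSpace.Completion.inner_coe, inner_e]

end Pool.Agent.V11241.GNSZ
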