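import Mathlib
import Pool.Agent.H534R3.NonBorel

/-! # Combinatorial part: flows on the tree of nodes `(s,i)` -/

namespace Pool.Agent.V11241.Rot

open Set Filter Topology
open Pool.Agent.H534R3.NonBorel (br br_eq_iff length_br)

theorem br_succ (f : ℕ → ℕ) (n : ℕ) : br f (n + 1) = br f n ++ [f n] := by
  simp [br, List.range_succ]

/-- Flow lemma. -/
theorem flow (c : List ℕ × ℕ → ℤ) (T : List ℕ → Prop) (E : Set (List ℕ × ℕ)) (hE : E.Finite)
    (hcons : ∀ s i, (s, i) ∉ E → c (s, i) = c (s, i + 1) + c (s ++ [i], 0))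
    (hT : ∀ s i, (s, i) ∉ E → c (s, i) ≠ 0 → T s)
    (hfin : ∀ s, {i | c (s, i) ≠ 0}.Finite) (hinf : {p | c p ≠ 0}.Infinite) :
    ∃ f : ℕ → ℕ, ∀ n, ∃ s, T s ∧ br f n <+: s := by
  classical
  -- the set of prefixes of exceptional nodes
  let D : Set (List ℕ) := {s | ∃ p ∈ E, s <+: p.1}
  have hD : D.Finite := by
    have : D = ⋃ p ∈ E, {s | s <+: p.1} := by
      ext s; simp [D]
    rw [this]
    refine hE.biUnion fun p _ => ?_
    refine (List.finite_toSet p.1.inits).subset ?_
    intro s hs
    exact (List.mem_inits _ _).2 hs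
  -- a good starting point
  obtain ⟨s0, i0, hs0, hi0⟩ : ∃ s0 i0, s0 ∉ D ∧ c (s0, i0) ≠ 0 := by
    by_contra hcon
    push Not at hcon
    apply hinf
    refine (hD.biUnion fun s _ => (hfin s).image (fun i => (s, i))).subset ?_
    rintro ⟨s, i⟩ hp
    rw [mem_iUnion₂]
    refine ⟨s, ?_, ⟨i, hp, rfl⟩⟩
    by_contra hs
    exact hp (hcon s i hs)
  -- one step
  have hDE : ∀ s i, s ∉ D → (s, i) ∉ E := fun s i hs hmem => hs ⟨(s, i), hmem, List.prefix_rfl⟩
  have hstep : ∀ s i, s ∉ D → c (s, i) ≠ 0 → ∃ k, s ++ [k] ∉ D ∧ c (s ++ [k], 0) ≠ 0 := by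
    intro s i hs hi
    have hD' : ∀ k, s ++ [k] ∉ D := by
      rintro k ⟨p, hp, hpre⟩
      exact hs ⟨p, hp, (List.prefix_append _ _).trans hpre⟩
    by_contra hcon
    push Not at hcon
    have hzero : ∀ k, c (s ++ [k], 0) = 0 := fun k => hcon k (hD' k)
    have hconst : ∀ k, c (s, i + k) = c (s, i) := by
      intro k
      induction k with
      | zero => rfl
      | succ k ih =>
        have := hcons s (i + k) (hDE s _ hs)
        rw [hzero, add_zero, ih] at this
        rw [← add_assoc]; exact this.symm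
    refine infinite_of_injective_forall_mem (f := fun k : ℕ => i + k) (fun a b h => by simpa using h)
      (fun k => ?_) (hfin s)
    show c (s, i + k) ≠ 0
    rw [hconst]; exact hi
  choose! nx hnx using fun (s : List ℕ) (hs : s ∉ D ∧ ∃ i, c (s, i) ≠ 0) =>
    (hstep s hs.2.choose hs.1 hs.2.choose_spec)
  obtain ⟨s, hs00, hsS⟩ : ∃ s : ℕ → List ℕ, s 0 = s0 ∧ ∀ n, s (n + 1) = s n ++ [nx (s n)] :=
    ⟨fun n => Nat.rec s0 (fun _ t => t ++ [nx t]) n, rfl, fun _ => rfl⟩
  have hs : ∀ n, s n ∉ D ∧ ∃ i, c (s n, i) ≠ 0 := by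
    intro n
    induction n with
    | zero => rw [hs00]; exact ⟨hs0, i0, hi0⟩
    | succ n ih => rw [hsS]; exact ⟨(hnx (s n) ih).1, 0, (hnx (s n) ih).2⟩
  have hlen : ∀ n, (s n).length = s0.length + n := by
    intro n
    induction n with
    | zero => rw [hs00]; rfl
    | succ n ih =>
      rw [hsS, List.length_append, ih]; rfl
  have hpre : ∀ n k, s n <+: s (n + k) := by
    intro n k
    induction k with
    | zero => exact List.prefix_rfl
    | succ k ih => rw [← add_assoc, hsS]; exact ih.trans (List.prefix_append _ _)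
  -- the branch
  refine ⟨fun k => (s (k + 1)).getD k 0, fun n => ⟨s n, ?_, ?_⟩⟩
  · obtain ⟨h1, i, h2⟩ := hs n
    exact hT (s n) i (hDE _ _ h1) h2
  · have hkey : br (fun k => (s (k + 1)).getD k 0) n = (s n).take n := by
      apply List.ext_getElem?
      intro k
      by_cases hk : k < n
      · have hk1 : k < (s (k + 1)).length := by rw [hlen]; omega
        have hk2 : k < (s n).length := by rw [hlen]; omega
        have h1 : (s (k + 1))[k]? = (s n)[k]? := by
          obtain ⟨m, rfl⟩ : ∃ m, n = k + 1 + m := ⟨n - (k + 1), by omega⟩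
          obtain ⟨t, ht⟩ := hpre (k + 1) m
          rw [← ht, List.getElem?_append_left hk1]
        rw [List.getElem?_take, if_pos hk, ← h1]
        simp only [br, List.getElem?_map, List.getElem?_range hk, Option.map_some]
        rw [List.getD_eq_getElem?_getD, List.getElem?_eq_getElem hk1]
        rfl
      · have h1 : (br (fun k => (s (k + 1)).getD k 0) n).length ≤ k := by rw [length_br]; omega
        rw [List.getElem?_eq_none h1, List.getElem?_eq_none]
        rw [List.length_take]; omega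
    rw [hkey]
    exact List.take_prefix _ _

end Pool.Agent.V11241.Rot
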