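import Mathlib
import Pool.Agent.V11241.RotA

/-! # Arithmetic part -/

namespace Pool.Agent.V11241.Rot

open Set Filter Topology
open Pool.Agent.H534R3.NonBorel (br br_eq_iff length_br)

abbrev Nd := List ℕ × ℕ
abbrev UA := UnitAddCircle

def e : Nd ≃ ℕ := Denumerable.eqv Nd
def nd (j : ℕ) : Nd := e.symm j
def L (j : ℕ) : ℕ := (nd j).1.length
def P (j : ℕ) : ℕ := L j + 1
def al (j : ℕ) : ℕ := j + 2 * L j + 10
def A (j : ℕ) : ℕ := ∑ k ∈ Finset.range j, al k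
def hh (j : ℕ) : ℕ := L j + 5
def j1 (j : ℕ) : ℕ := e ((nd j).1, (nd j).2 + 1)
def j2 (j : ℕ) : ℕ := e ((nd j).1 ++ [(nd j).2], 0)
def M (j : ℕ) : ℕ := 2 ^ (al j) / P j

def tA (j r : ℕ) : ℤ := if r ≤ M j then (r : ℤ) * 2 ^ (A j) else 0
def tB (j r : ℕ) : ℤ := if r ≤ 2 ^ (L j + 4) then
  (r : ℤ) * (2 ^ (A (j + 1) - hh j) - 2 ^ (A (j1 j + 1) - hh j) - 2 ^ (A (j2 j + 1) - hh j)) else 0
def tC (T : List ℕ → Bool) (j r : ℕ) : ℤ := if r ≤ 2 ^ (L j + 4) ∧ T (nd j).1 = false then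
  (r : ℤ) * 2 ^ (A (j + 1) - hh j) else 0

@[simp] theorem nd_e (p : Nd) : nd (e p) = p := e.symm_apply_apply p
@[simp] theorem e_nd (j : ℕ) : e (nd j) = j := e.apply_symm_apply j

theorem L_j1 (j : ℕ) : L (j1 j) = L j := by simp [L, j1]
theorem L_j2 (j : ℕ) : L (j2 j) = L j + 1 := by simp [L, j2]

theorem j1_inj : Function.Injective j1 := by
  intro a b h
  have h1 := e.injective h
  rw [Prod.mk.injEq] at h1
  have h2 : nd a = nd b := Prod.ext h1.1 (by omega)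
  rw [← e_nd a, ← e_nd b, h2]

theorem j2_inj : Function.Injective j2 := by
  intro a b h
  have h1 := e.injective h
  rw [Prod.mk.injEq] at h1
  have h3 := List.append_inj' h1.1 rfl
  have h2 : nd a = nd b := Prod.ext h3.1 (by simpa using h3.2)
  rw [← e_nd a, ← e_nd b, h2]

theorem A_succ (j : ℕ) : A (j + 1) = A j + al j := Finset.sum_range_succ _ _

theorem coe_add_int (x : ℝ) (n : ℤ) : ((x + n : ℝ) : UA) = (x : UA) := by
  have h : ((n : ℝ) : UA) = 0 := by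
    rw [AddCircle.coe_eq_zero_iff]
    exact ⟨n, by simp⟩
  rw [AddCircle.coe_add, h, add_zero]

theorem zsmul_coe (n : ℤ) (x : ℝ) : n • (x : UA) = ((n * x : ℝ) : UA) := by
  rw [← AddCircle.coe_zsmul]
  congr 1
  simp

theorem nsmul_coe (n : ℕ) (x : ℝ) : n • (x : UA) = ((n * x : ℝ) : UA) := by
  rw [← AddCircle.coe_nsmul]
  congr 1
  simp

theorem norm_coe_of_le {x : ℝ} (h : |x| ≤ 1 / 2) : ‖(x : UA)‖ = |x| := by
  rw [AddCircle.norm_coe_eq_abs_iff]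
  · simpa using h
  · norm_num

theorem norm_coe_le (x : ℝ) : ‖(x : UA)‖ ≤ |x| := by
  rw [UnitAddCircle.norm_eq]
  simpa using round_le x 0

/-- If all small multiples are near zero, then so are they as reals. -/
theorem small_mult (x : ℝ) (R : ℕ) (δ : ℝ) (hδ : δ < 1 / 4) (hx : |x| ≤ 1 / 2)
    (h : ∀ r : ℕ, r ≤ R → ‖r • (x : UA)‖ ≤ δ) : R * |x| ≤ δ := by
  have h0 : 0 ≤ δ := (norm_nonneg _).trans (h 0 (Nat.zero_le _))
  have key : ∀ r : ℕ, r ≤ R → r * |x| ≤ δ := by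
    intro r
    induction r with
    | zero => intro _; simpa using h0
    | succ r ih =>
      intro hr
      have h1 := ih (by omega)
      have h2 : |((r + 1 : ℕ) : ℝ) * x| ≤ 1 / 2 := by
        rw [abs_mul, Nat.abs_cast]
        rcases Nat.eq_zero_or_pos r with h3 | h3
        · subst h3; simpa using hx
        · have h4 : (1 : ℝ) ≤ r := by exact_mod_cast h3
          push_cast
          nlinarith [abs_nonneg x]
      have h3 := h (r + 1) hr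
      rw [nsmul_coe, norm_coe_of_le h2, abs_mul, Nat.abs_cast] at h3
      exact h3
  exact key R le_rfl

/-- The congruence used everywhere. -/
theorem pow_smul (t : UA) (j h : ℕ) (hh : h ≤ al j) (x : ℝ)
    (hx : ((2 : ℤ) ^ (A j)) • t = (x : UA)) :
    ((2 : ℤ) ^ (A (j + 1) - h)) • t = ((2 ^ (al j) * x / 2 ^ h : ℝ) : UA) := by
  have h1 : (2 : ℤ) ^ (A (j + 1) - h) = 2 ^ (al j - h) * 2 ^ (A j) := by
    rw [← pow_add]
    congr 1
    rw [A_succ]; omega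
  rw [h1, mul_smul, hx, zsmul_coe]
  congr 1
  push_cast
  rw [pow_sub₀ (2 : ℝ) two_ne_zero hh]
  ring

theorem hh_le (j : ℕ) : hh j ≤ al j := by unfold hh al; omega
theorem hh_le1 (j : ℕ) : hh j ≤ al (j1 j) := by
  unfold hh al; rw [L_j1]; omega
theorem hh_le2 (j : ℕ) : hh j ≤ al (j2 j) := by
  unfold hh al; rw [L_j2]; omega

theorem tB_smul (t : UA) (x : ℕ → ℝ) (hx : ∀ j, ((2 : ℤ) ^ (A j)) • t = (x j : UA)) (j r : ℕ)
    (hr : r ≤ 2 ^ (L j + 4)) :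
    tB j r • t = r • (((2 ^ (al j) * x j - 2 ^ (al (j1 j)) * x (j1 j) -
      2 ^ (al (j2 j)) * x (j2 j)) / 2 ^ (hh j) : ℝ) : UA) := by
  unfold tB
  rw [if_pos hr, mul_smul, sub_smul, sub_smul, pow_smul t j _ (hh_le j) _ (hx j),
    pow_smul t (j1 j) _ (hh_le1 j) _ (hx (j1 j)), pow_smul t (j2 j) _ (hh_le2 j) _ (hx (j2 j)),
    ← AddCircle.coe_sub, ← AddCircle.coe_sub, natCast_zsmul]
  congr 2
  ring

theorem tC_smul (T : List ℕ → Bool) (t : UA) (x : ℕ → ℝ)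
    (hx : ∀ j, ((2 : ℤ) ^ (A j)) • t = (x j : UA)) (j r : ℕ)
    (hr : r ≤ 2 ^ (L j + 4)) (hT : T (nd j).1 = false) :
    tC T j r • t = r • (((2 ^ (al j) * x j) / 2 ^ (hh j) : ℝ) : UA) := by
  unfold tC
  rw [if_pos ⟨hr, hT⟩, mul_smul, pow_smul t j _ (hh_le j) _ (hx j), natCast_zsmul]

theorem tA_smul (t : UA) (x : ℕ → ℝ) (hx : ∀ j, ((2 : ℤ) ^ (A j)) • t = (x j : UA)) (j r : ℕ)
    (hr : r ≤ M j) : tA j r • t = r • (x j : UA) := by
  unfold tA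
  rw [if_pos hr, mul_smul, hx, natCast_zsmul]

theorem div_bound (N P : ℕ) (hP : 0 < P) (h : P ≤ N) :
    (N : ℝ) ≤ 2 * P * ((N / P : ℕ) : ℝ) ∧ 1 ≤ N / P := by
  have h2 : 1 ≤ N / P := (Nat.one_le_div_iff hP).2 h
  refine ⟨?_, h2⟩
  have h3 : N < P * (N / P + 1) := Nat.lt_mul_div_succ N hP
  have h4 : (N : ℝ) < P * (((N / P : ℕ) : ℝ) + 1) := by exact_mod_cast h3
  have h5 : (1 : ℝ) ≤ ((N / P : ℕ) : ℝ) := by exact_mod_cast h2
  have h6 : (0 : ℝ) < P := by exact_mod_cast hP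
  nlinarith

theorem P_le (j : ℕ) : P j ≤ 2 ^ (al j) := by
  have h2 : L j + 1 ≤ 2 ^ (L j + 1) := Nat.lt_two_pow_self.le
  have h3 : 2 ^ (L j + 1) ≤ 2 ^ (al j) := Nat.pow_le_pow_right (by norm_num) (by unfold al; omega)
  exact h2.trans h3

theorem P_pos (j : ℕ) : 0 < P j := Nat.succ_pos _

theorem M_bound (j : ℕ) : (2 : ℝ) ^ (al j) ≤ 2 * P j * M j ∧ 1 ≤ M j := by
  have h := div_bound (2 ^ (al j)) (P j) (P_pos j) (P_le j)
  unfold M
  rw [Nat.cast_pow, Nat.cast_ofNat] at h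
  exact h

theorem M_mul_le (j : ℕ) : (M j : ℝ) * P j ≤ 2 ^ (al j) := by
  unfold M
  have h : 2 ^ (al j) / P j * P j ≤ 2 ^ (al j) := Nat.div_mul_le_self _ _
  have h2 : (((2 ^ (al j) / P j * P j : ℕ)) : ℝ) ≤ ((2 ^ (al j) : ℕ) : ℝ) := Nat.cast_le.2 h
  rw [Nat.cast_mul, Nat.cast_pow, Nat.cast_ofNat] at h2
  exact h2

/-- Convergence to zero along all pairs. -/
theorem tendsto_pairs (F : ℕ × ℕ → UA) (G : ℕ → ℝ) (R : ℕ → ℕ) (hG : Tendsto G atTop (𝓝 0))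
    (hF : ∀ j r, ‖F (j, r)‖ ≤ G j) (hR : ∀ j r, R j < r → F (j, r) = 0) :
    Tendsto F cofinite (𝓝 0) := by
  rw [tendsto_zero_iff_norm_tendsto_zero, Metric.tendsto_nhds]
  intro ε hε
  have h1 : ∀ᶠ j in atTop, G j < ε := hG.eventually (gt_mem_nhds hε)
  rw [← Nat.cofinite_eq_atTop, eventually_cofinite] at h1
  rw [eventually_cofinite]
  refine (h1.biUnion fun j _ => ((finite_Iic (R j)).image fun r => (j, r))).subset ?_
  rintro ⟨j, r⟩ hjr
  have h2 : ¬ (‖F (j, r)‖ < ε) := by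
    intro h
    apply hjr
    rw [dist_zero_right, norm_norm]; exact h
  rw [mem_iUnion₂]
  refine ⟨j, ?_, r, ?_, rfl⟩
  · intro h
    exact h2 ((hF j r).trans_lt h)
  · by_contra hr
    apply h2
    rw [hR j r (not_le.1 hr), norm_zero]
    exact hε

end Pool.Agent.V11241.Rot
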