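import Mathlib
import Pool.Agent.V11241.RotB

/-! # From a branch to a point of the circle -/

namespace Pool.Agent.V11241.Rot

open Set Filter Topology
open Pool.Agent.H534R3.NonBorel (br br_eq_iff length_br)

section fwd
variable (f : ℕ → ℕ)

open Classical in
noncomputable def cc (j : ℕ) : ℕ :=
  if (nd j).1 = br f (L j) ∧ (nd j).2 ≤ f (L j) then 1 else 0

def B (j k : ℕ) : ℕ := ∑ l ∈ Finset.range (k + 1), al (j + l)

noncomputable def X (j : ℕ) : ℝ := ∑' k, (cc f (j + k) : ℝ) / 2 ^ (B j k)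

theorem cc_le (j : ℕ) : (cc f j : ℝ) ≤ 1 := by
  unfold cc; split_ifs <;> simp

theorem B_ge (j k : ℕ) : j + k + 1 ≤ B j k := by
  induction k with
  | zero =>
    simp only [B, zero_add, Finset.sum_range_one, add_zero, al]; omega
  | succ k ih =>
    unfold B at ih ⊢
    rw [Finset.sum_range_succ]
    have : 1 ≤ al (j + (k + 1)) := by unfold al; omega
    omega

theorem B_zero (j : ℕ) : B j 0 = al j := by simp [B]

theorem B_succ (j k : ℕ) : B j (k + 1) = al j + B (j + 1) k := by
  unfold B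
  rw [Finset.sum_range_succ', add_comm, add_zero]
  congr 1
  refine Finset.sum_congr rfl fun l _ => ?_
  congr 1; omega

theorem term_le (j k : ℕ) : (cc f (j + k) : ℝ) / 2 ^ (B j k) ≤ (1 / 2) ^ j / 2 / 2 ^ k := by
  have h1 : (2 : ℝ) ^ (j + k + 1) ≤ 2 ^ (B j k) := pow_le_pow_right₀ (by norm_num) (B_ge j k)
  calc (cc f (j + k) : ℝ) / 2 ^ (B j k) ≤ 1 / 2 ^ (B j k) := by
        gcongr; exact cc_le f _
    _ ≤ 1 / 2 ^ (j + k + 1) := one_div_le_one_div_of_le (by positivity) h1
    _ = (1 / 2) ^ j / 2 / 2 ^ k := by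
      rw [pow_add, pow_add, one_div_pow]
      field_simp

theorem summ (j : ℕ) : Summable fun k => (cc f (j + k) : ℝ) / 2 ^ (B j k) :=
  Summable.of_nonneg_of_le (fun k => by positivity) (term_le f j) (summable_geometric_two' _)

theorem X_nonneg (j : ℕ) : 0 ≤ X f j := tsum_nonneg fun k => by positivity

theorem X_le (j : ℕ) : X f j ≤ (1 / 2) ^ j := by
  have h := (summ f j).tsum_le_tsum (term_le f j) (summable_geometric_two' _)
  rw [tsum_geometric_two'] at h
  exact h

theorem X_rec (j : ℕ) : X f j = (cc f j + X f (j + 1)) / 2 ^ (al j) := by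
  unfold X
  rw [(summ f j).tsum_eq_zero_add, B_zero, add_zero, add_div]
  congr 1
  rw [← tsum_div_const]
  refine tsum_congr fun k => ?_
  rw [B_succ, pow_add, div_div]
  have : j + (k + 1) = j + 1 + k := by omega
  rw [this, mul_comm]

theorem X_mul (j : ℕ) : 2 ^ (al j) * X f j = cc f j + X f (j + 1) := by
  rw [X_rec f j]; field_simp

theorem smul_X (j : ℕ) : ((2 : ℤ) ^ (A j)) • ((X f 0 : ℝ) : UA) = ((X f j : ℝ) : UA) := by
  induction j with
  | zero => simp [A]
  | succ j ih =>
    rw [A_succ, add_comm, pow_add, mul_smul, ih, zsmul_coe]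
    push_cast
    rw [X_mul, add_comm]
    have := coe_add_int (X f (j + 1)) (cc f j)
    push_cast at this ⊢
    exact this

theorem X_tendsto : Tendsto (fun j => X f (j + 1)) atTop (𝓝 0) := by
  refine squeeze_zero (fun j => X_nonneg f _) (fun j => X_le f _) ?_
  exact (tendsto_add_atTop_iff_nat 1).2
    (tendsto_pow_atTop_nhds_zero_of_lt_one (by norm_num) (by norm_num))

theorem cc_cons (j : ℕ) : cc f j = cc f (j1 j) + cc f (j2 j) := by
  classical
  unfold cc
  rw [L_j1, L_j2]
  simp only [j1, j2, nd_e]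
  by_cases h : (nd j).1 = br f (L j)
  · have h2 : ((nd j).1 ++ [(nd j).2] = br f (L j + 1)) ↔ (nd j).2 = f (L j) := by
      rw [br_succ, ← h]
      simp
    rcases lt_trichotomy (nd j).2 (f (L j)) with h3 | h3 | h3
    · rw [if_pos ⟨h, h3.le⟩, if_pos ⟨h, h3⟩, if_neg (fun h' => h3.ne (h2.1 h'.1))]
    · rw [if_pos ⟨h, h3.le⟩, if_neg (fun h' => by omega), if_pos ⟨h2.2 h3, Nat.zero_le _⟩]
    · rw [if_neg (fun h' => by omega), if_neg (fun h' => by omega),
        if_neg (fun h' => by have := h2.1 h'.1; omega)]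
  · have h2 : ¬ ((nd j).1 ++ [(nd j).2] = br f (L j + 1)) := by
      intro h'
      rw [br_succ] at h'
      exact h (List.append_inj' h' rfl).1
    rw [if_neg (fun h' => h h'.1), if_neg (fun h' => h h'.1), if_neg (fun h' => h2 h'.1)]

theorem cc_div_tendsto : Tendsto (fun j => (cc f j : ℝ) / P j) atTop (𝓝 0) := by
  classical
  rw [Metric.tendsto_nhds]
  intro ε hε
  obtain ⟨N, hN⟩ := exists_nat_one_div_lt hε
  rw [← Nat.cofinite_eq_atTop, eventually_cofinite]
  refine ((finite_Iio (N + 1)).biUnion fun n _ =>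
    ((finite_Iic (f n)).image fun i => e (br f n, i))).subset ?_
  intro j hj
  have h1 : ¬ ((cc f j : ℝ) / P j < ε) := by
    intro h
    apply hj
    rw [dist_zero_right, Real.norm_of_nonneg (by positivity)]; exact h
  have h2 : (nd j).1 = br f (L j) ∧ (nd j).2 ≤ f (L j) := by
    by_contra hcon
    apply h1
    have : cc f j = 0 := by unfold cc; rw [if_neg hcon]
    rw [this]; simpa using hε
  rw [mem_iUnion₂]
  refine ⟨L j, ?_, (nd j).2, h2.2, ?_⟩
  · show L j < N + 1
    by_contra hcon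
    apply h1
    refine lt_of_le_of_lt ?_ hN
    have h3 : (N : ℝ) + 1 ≤ P j := by
      have : N + 1 ≤ P j := by unfold P; omega
      exact_mod_cast this
    have h4 := cc_le f j
    gcongr
  · show e (br f (L j), (nd j).2) = j
    rw [← h2.1]
    exact e_nd j

theorem j1_tendsto : Tendsto j1 atTop atTop := by
  rw [← Nat.cofinite_eq_atTop]; exact j1_inj.tendsto_cofinite

theorem j2_tendsto : Tendsto j2 atTop atTop := by
  rw [← Nat.cofinite_eq_atTop]; exact j2_inj.tendsto_cofinite

theorem tendsto_A : Tendsto (fun p : ℕ × ℕ => tA p.1 p.2 • ((X f 0 : ℝ) : UA)) cofinite (𝓝 0) := by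
  refine tendsto_pairs _ (fun j => (cc f j : ℝ) / P j + X f (j + 1)) M ?_ ?_ ?_
  · simpa using (cc_div_tendsto f).add (X_tendsto f)
  · intro j r
    have hP : (1 : ℝ) ≤ P j := by exact_mod_cast P_pos j
    have hX := X_nonneg f (j + 1)
    show ‖tA j r • ((X f 0 : ℝ) : UA)‖ ≤ _
    by_cases hr : r ≤ M j
    · rw [tA_smul _ (X f) (smul_X f) j r hr, nsmul_coe]
      refine (norm_coe_le _).trans ?_
      rw [abs_of_nonneg (mul_nonneg (Nat.cast_nonneg _) (X_nonneg f j))]
      have h1 : (r : ℝ) ≤ M j := by exact_mod_cast hr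
      have h2 := M_mul_le j
      have h3 : (r : ℝ) * X f j ≤ (cc f j + X f (j + 1)) / P j := by
        rw [le_div_iff₀ (by linarith), ← X_mul]
        have h4 := X_nonneg f j
        have h5 : (r : ℝ) * P j ≤ M j * P j := by gcongr
        nlinarith
      refine h3.trans ?_
      rw [add_div]
      gcongr
      exact div_le_self hX hP
    · unfold tA
      rw [if_neg hr, zero_smul, norm_zero]
      positivity
  · intro j r hr
    show tA j r • ((X f 0 : ℝ) : UA) = 0
    unfold tA
    rw [if_neg (by omega), zero_smul]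

theorem half_bound (j r : ℕ) (hr : r ≤ 2 ^ (L j + 4)) (w : ℝ) :
    ‖r • ((w / 2 ^ (hh j) : ℝ) : UA)‖ ≤ |w| := by
  rw [nsmul_coe]
  refine (norm_coe_le _).trans ?_
  rw [abs_mul, abs_div, abs_pow, abs_of_pos (by norm_num : (0 : ℝ) < 2), Nat.abs_cast]
  have h1 : (r : ℝ) ≤ 2 ^ (L j + 4) := by exact_mod_cast hr
  have h2 : (2 : ℝ) ^ (L j + 4) ≤ 2 ^ (hh j) := pow_le_pow_right₀ (by norm_num) (by unfold hh; omega)
  rw [mul_div_assoc', div_le_iff₀ (by positivity), mul_comm]
  gcongr
  exact h1.trans h2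

theorem tendsto_B : Tendsto (fun p : ℕ × ℕ => tB p.1 p.2 • ((X f 0 : ℝ) : UA)) cofinite (𝓝 0) := by
  refine tendsto_pairs _ (fun j => X f (j + 1) + X f (j1 j + 1) + X f (j2 j + 1))
    (fun j => 2 ^ (L j + 4)) ?_ ?_ ?_
  · have h := X_tendsto f
    simpa using (h.add (h.comp j1_tendsto)).add (h.comp j2_tendsto)
  · intro j r
    have hX := X_nonneg f (j + 1)
    have hX1 := X_nonneg f (j1 j + 1)
    have hX2 := X_nonneg f (j2 j + 1)
    show ‖tB j r • ((X f 0 : ℝ) : UA)‖ ≤ _
    by_cases hr : r ≤ 2 ^ (L j + 4)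
    · rw [tB_smul _ (X f) (smul_X f) j r hr]
      refine (half_bound j r hr _).trans ?_
      rw [X_mul, X_mul, X_mul, cc_cons f j]
      push_cast
      rw [abs_le]
      constructor <;> linarith
    · unfold tB
      rw [if_neg hr, zero_smul, norm_zero]
      positivity
  · intro j r hr
    show tB j r • ((X f 0 : ℝ) : UA) = 0
    unfold tB
    rw [if_neg (by omega), zero_smul]

theorem tendsto_C (T : List ℕ → Bool) (hT : ∀ n, T (br f n) = true) :
    Tendsto (fun p : ℕ × ℕ => tC T p.1 p.2 • ((X f 0 : ℝ) : UA)) cofinite (𝓝 0) := by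
  classical
  refine tendsto_pairs _ (fun j => X f (j + 1)) (fun j => 2 ^ (L j + 4)) (X_tendsto f) ?_ ?_
  · intro j r
    have hX := X_nonneg f (j + 1)
    show ‖tC T j r • ((X f 0 : ℝ) : UA)‖ ≤ _
    by_cases hr : r ≤ 2 ^ (L j + 4) ∧ T (nd j).1 = false
    · rw [tC_smul T _ (X f) (smul_X f) j r hr.1 hr.2]
      refine (half_bound j r hr.1 _).trans ?_
      have hcc : cc f j = 0 := by
        unfold cc
        rw [if_neg]
        rintro ⟨h1, -⟩
        have h2 := hr.2
        rw [h1, hT] at h2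
        exact absurd h2 (by simp)
      rw [X_mul, hcc]
      push_cast
      rw [zero_add, abs_of_nonneg hX]
    · unfold tC
      rw [if_neg hr, zero_smul, norm_zero]
      exact hX
  · intro j r hr
    show tC T j r • ((X f 0 : ℝ) : UA) = 0
    unfold tC
    rw [if_neg (by rintro ⟨h, -⟩; omega), zero_smul]

theorem not_torsion (m : ℕ) (hm : 0 < m) : m • ((X f 0 : ℝ) : UA) ≠ 0 := by
  classical
  intro h
  -- find large `J`
  obtain ⟨J, hJ⟩ : ∃ J : ℕ, ∀ j ≥ J, (m : ℝ) * (1 / 2) ^ j ≤ 1 / 2 := by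
    have h1 : Tendsto (fun j : ℕ => (m : ℝ) * (1 / 2) ^ j) atTop (𝓝 ((m : ℝ) * 0)) :=
      (tendsto_pow_atTop_nhds_zero_of_lt_one (by norm_num) (by norm_num)).const_mul _
    rw [mul_zero] at h1
    have h2 := h1.eventually (gt_mem_nhds (show (0 : ℝ) < 1 / 2 by norm_num))
    obtain ⟨J, hJ⟩ := eventually_atTop.1 h2
    exact ⟨J, fun j hj => (hJ j hj).le⟩
  have hinj : Function.Injective (fun n => e (br f n, 0)) := by
    intro a b hab
    have := congrArg (fun p : Nd => p.1.length) (e.injective hab)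
    simpa using this
  obtain ⟨_, ⟨n, rfl⟩, hn⟩ := (infinite_range_of_injective hinj).exists_gt J
  set j := e (br f n, 0) with hj
  have hLj : L j = n := by simp [L, hj]
  have hcc : cc f j = 1 := by
    unfold cc
    rw [hLj, if_pos]
    simp [hj]
  have hXpos : 0 < X f j := by
    rw [X_rec, hcc]
    have := X_nonneg f (j + 1)
    positivity
  have h3 : m • ((X f j : ℝ) : UA) = 0 := by
    rw [← smul_X f j, smul_comm, h, smul_zero]
  rw [nsmul_coe] at h3
  have h4 := hJ j hn.le
  have h5 : |(m : ℝ) * X f j| ≤ 1 / 2 := by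
    rw [abs_of_nonneg (by positivity)]
    refine le_trans ?_ h4
    gcongr
    exact X_le f j
  have h6 := norm_coe_of_le h5
  rw [h3, norm_zero] at h6
  have hm' : (0 : ℝ) < m := by exact_mod_cast hm
  have h7 : (0 : ℝ) < (m : ℝ) * X f j := by positivity
  rw [abs_of_pos h7] at h6
  linarith

end fwd

end Pool.Agent.V11241.Rot
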