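import Mathlib
import Pool.Agent.V11241.RotC

/-! # From a point of the circle to a branch -/

namespace Pool.Agent.V11241.Rot

open Set Filter Topology
open Pool.Agent.H534R3.NonBorel (br br_eq_iff length_br)

theorem ev_of {Q : ℕ × ℕ → Prop} (h : ∀ᶠ p in cofinite, Q p) :
    ∀ᶠ j in cofinite, ∀ r, Q (j, r) := by
  rw [eventually_cofinite] at h ⊢
  refine (h.image Prod.fst).subset ?_
  intro j hj
  have hj' : ¬ ∀ r, Q (j, r) := hj
  push Not at hj'
  obtain ⟨r, hr⟩ := hj'
  exact ⟨(j, r), hr, rfl⟩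

theorem coe_eq_iff {a b : ℝ} (h : (a : UA) = (b : UA)) : ∃ n : ℤ, a = n + b := by
  have h1 : ((a - b : ℝ) : UA) = 0 := by rw [AddCircle.coe_sub, h, sub_self]
  rw [AddCircle.coe_eq_zero_iff] at h1
  obtain ⟨n, hn⟩ := h1
  refine ⟨n, ?_⟩
  have : (n : ℝ) = a - b := by simpa using hn
  rw [this]; ring

theorem ev_ball {ι : Type*} {F : ι → UA} (h : Tendsto F cofinite (𝓝 0)) {δ : ℝ} (hδ : 0 < δ) :
    ∀ᶠ p in cofinite, ‖F p‖ ≤ δ := by
  have h1 := tendsto_zero_iff_norm_tendsto_zero.1 h
  exact (h1.eventually (gt_mem_nhds hδ)).mono fun _ h => le_of_lt h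

theorem backward (t : UA) (T : List ℕ → Bool) (htor : ∀ m : ℕ, 0 < m → m • t ≠ 0)
    (hA : Tendsto (fun p : ℕ × ℕ => tA p.1 p.2 • t) cofinite (𝓝 0))
    (hB : Tendsto (fun p : ℕ × ℕ => tB p.1 p.2 • t) cofinite (𝓝 0))
    (hC : Tendsto (fun p : ℕ × ℕ => tC T p.1 p.2 • t) cofinite (𝓝 0)) :
    ∃ f : ℕ → ℕ, ∀ n, ∃ s, T s = true ∧ br f n <+: s := by
  classical
  -- representatives
  obtain ⟨x, hx, hxle⟩ : ∃ x : ℕ → ℝ, (∀ j, ((2 : ℤ) ^ (A j)) • t = (x j : UA)) ∧
      ∀ j, |x j| ≤ 1 / 2 := by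
    have : ∀ u : UA, ∃ y : ℝ, u = (y : UA) ∧ |y| ≤ 1 / 2 := by
      intro u
      obtain ⟨y, rfl⟩ := QuotientAddGroup.mk_surjective u
      refine ⟨y - round y, ?_, abs_sub_round y⟩
      have := coe_add_int (y - round y) (round y)
      rw [sub_add_cancel] at this
      exact this
    choose g hg using this
    exact ⟨fun j => g _, fun j => (hg _).1, fun j => (hg _).2⟩
  -- digits
  have hdig : ∀ j, ∃ c : ℤ, 2 ^ (al j) * x j = c + x (j + 1) := by
    intro j
    apply coe_eq_iff
    have h1 := pow_smul t j 0 (Nat.zero_le _) (x j) (hx j)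
    rw [Nat.sub_zero, hx (j + 1)] at h1
    rw [h1]
    congr 1
    simp
  choose c hc using hdig
  -- consequences of `hA`
  have hA1 : ∀ δ : ℝ, 0 < δ → δ < 1 / 4 → ∀ᶠ j in cofinite, (M j : ℝ) * |x j| ≤ δ := by
    intro δ h0 h1
    filter_upwards [ev_of (ev_ball hA h0)] with j hj
    refine small_mult (x j) (M j) δ h1 (hxle j) fun r hr => ?_
    rw [← tA_smul t x hx j r hr]
    exact hj r
  have hA2 : ∀ δ : ℝ, 0 < δ → δ < 1 / 4 → ∀ᶠ j in cofinite, |2 ^ (al j) * x j| ≤ 2 * δ * P j := by
    intro δ h0 h1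
    filter_upwards [hA1 δ h0 h1] with j hj
    obtain ⟨h2, -⟩ := M_bound j
    rw [abs_mul, abs_of_pos (by positivity : (0 : ℝ) < 2 ^ (al j))]
    have h3 := abs_nonneg (x j)
    have h4 : (0 : ℝ) ≤ P j := Nat.cast_nonneg _
    calc 2 ^ (al j) * |x j| ≤ (2 * P j * M j) * |x j| := by gcongr
      _ = 2 * P j * (M j * |x j|) := by ring
      _ ≤ 2 * P j * δ := by gcongr
      _ = 2 * δ * P j := by ring
  have hA3 : ∀ᶠ j in cofinite, |x j| ≤ 1 / 8 := by
    filter_upwards [hA1 (1 / 8) (by norm_num) (by norm_num)] with j hj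
    obtain ⟨-, h2⟩ := M_bound j
    have h3 : (1 : ℝ) ≤ M j := by exact_mod_cast h2
    have h4 := abs_nonneg (x j)
    nlinarith
  have hA4 : ∀ᶠ j in cofinite, |2 ^ (al j) * x j| ≤ 1 / 4 * P j := by
    filter_upwards [hA2 (1 / 8) (by norm_num) (by norm_num)] with j hj
    refine hj.trans (le_of_eq (by ring))
  have hs1 : Function.Injective (fun j : ℕ => j + 1) := add_left_injective 1
  have hA3' : ∀ᶠ j in cofinite, |x (j + 1)| ≤ 1 / 8 := hs1.tendsto_cofinite.eventually hA3
  -- vanishing criterion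
  have hzero : ∀ (m : ℤ), |(m : ℝ)| < 1 → m = 0 := by
    intro m hm
    have : |m| < 1 := by exact_mod_cast hm
    exact Int.abs_lt_one_iff.1 this
  have hpow : ∀ j, (3 * (L j : ℝ) + 4) / 4 ≤ 2 ^ (L j + 4) := by
    intro j
    have h1 : (L j : ℝ) + 4 ≤ 2 ^ (L j + 4) := by
      have : L j + 4 ≤ 2 ^ (L j + 4) := Nat.lt_two_pow_self.le
      exact_mod_cast this
    have : (0 : ℝ) ≤ L j := Nat.cast_nonneg _
    linarith
  have hP : ∀ j, (P j : ℝ) = L j + 1 := fun j => by simp [P]
  -- generic use of `small_mult`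
  have hgen : ∀ (j : ℕ) (w : ℝ), |w| ≤ 2 ^ (L j + 4) →
      (∀ r : ℕ, r ≤ 2 ^ (L j + 4) → ‖r • ((w / 2 ^ (hh j) : ℝ) : UA)‖ ≤ 1 / 8) →
      |w| ≤ 1 / 4 := by
    intro j w hw hr
    have h1 : (2 : ℝ) ^ (hh j) = 2 * 2 ^ (L j + 4) := by
      unfold hh; rw [← pow_succ']
    have h2 : |w / 2 ^ (hh j)| = |w| / (2 * 2 ^ (L j + 4)) := by
      rw [abs_div, h1, abs_of_pos (by positivity : (0 : ℝ) < 2 * 2 ^ (L j + 4))]
    have h3 := small_mult (w / 2 ^ (hh j)) (2 ^ (L j + 4)) (1 / 8) (by norm_num) (by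
      rw [h2, div_le_iff₀ (by positivity)]
      linarith) hr
    rw [h2] at h3
    push_cast at h3
    have h4 : (2 : ℝ) ^ (L j + 4) * (|w| / (2 * 2 ^ (L j + 4))) = |w| / 2 := by
      field_simp
    rw [h4] at h3
    linarith
  -- conservation
  have hcons : ∀ᶠ j in cofinite, c j = c (j1 j) + c (j2 j) := by
    filter_upwards [ev_of (ev_ball hB (show (0 : ℝ) < 1 / 8 by norm_num)), hA4,
      j1_inj.tendsto_cofinite.eventually hA4, j2_inj.tendsto_cofinite.eventually hA4, hA3',
      j1_inj.tendsto_cofinite.eventually hA3', j2_inj.tendsto_cofinite.eventually hA3']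
      with j hj h0 h1 h2 g0 g1 g2
    have hw := hgen j (2 ^ (al j) * x j - 2 ^ (al (j1 j)) * x (j1 j) -
      2 ^ (al (j2 j)) * x (j2 j)) (by
        rw [hP] at h0 h1 h2
        rw [L_j1] at h1
        rw [L_j2] at h2
        push_cast at h2
        have h3 := hpow j
        rw [abs_le] at h0 h1 h2 ⊢
        constructor <;> linarith) (fun r hr => by
          rw [← tB_smul t x hx j r hr]
          exact hj r)
    rw [hc, hc, hc] at hw
    have h5 : c j - c (j1 j) - c (j2 j) = 0 := by
      apply hzero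
      push_cast
      rw [abs_le] at hw g0 g1 g2
      rw [abs_lt]
      constructor <;> linarith
    omega
  -- vanishing off the tree
  have hoff : ∀ᶠ j in cofinite, c j ≠ 0 → T (nd j).1 = true := by
    filter_upwards [ev_of (ev_ball hC (show (0 : ℝ) < 1 / 8 by norm_num)), hA4, hA3']
      with j hj h0 g0
    intro hne
    by_contra hT
    have hT' : T (nd j).1 = false := by simpa using hT
    apply hne
    have hw := hgen j (2 ^ (al j) * x j) (by
        rw [hP] at h0
        have h3 := hpow j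
        have : (0 : ℝ) ≤ L j := Nat.cast_nonneg _
        linarith) (fun r hr => by
          rw [← tC_smul T t x hx j r hr hT']
          exact hj r)
    rw [hc] at hw
    apply hzero
    rw [abs_le] at hw g0
    rw [abs_lt]
    constructor <;> linarith
  -- finiteness on each spine
  have hfin : ∀ s : List ℕ, {i | c (e (s, i)) ≠ 0}.Finite := by
    intro s
    have hPs : (0 : ℝ) < (s.length : ℝ) + 1 := by positivity
    have hev : ∀ᶠ j in cofinite, |2 ^ (al j) * x j| ≤ 2 * (1 / (8 * ((s.length : ℝ) + 1))) * P j := by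
      apply hA2
      · positivity
      · rw [div_lt_iff₀ (by positivity)]
        have : (0 : ℝ) ≤ s.length := Nat.cast_nonneg _
        linarith
    have hi : Function.Injective (fun i : ℕ => e (s, i)) := by
      intro a b hab
      have := e.injective hab
      simpa using this
    have hev2 := hi.tendsto_cofinite.eventually (hev.and hA3')
    rw [eventually_cofinite] at hev2
    refine hev2.subset ?_
    intro i hi1 hi2
    apply hi1
    obtain ⟨h1, h2⟩ := hi2
    have h3 : P (e (s, i)) = s.length + 1 := by simp [P, L]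
    rw [h3] at h1
    push_cast at h1
    have h4 : 2 * (1 / (8 * ((s.length : ℝ) + 1))) * ((s.length : ℝ) + 1) = 1 / 4 := by
      field_simp; norm_num
    rw [h4, hc] at h1
    apply hzero
    rw [abs_le] at h1 h2
    rw [abs_lt]
    constructor <;> linarith
  -- infinitely many nonzero digits
  have hinf : {p : Nd | c (e p) ≠ 0}.Infinite := by
    intro hcon
    have h1 : {j | c j ≠ 0}.Finite := by
      refine (hcon.image e).subset ?_
      intro j hj
      exact ⟨nd j, by simpa using hj, e_nd j⟩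
    obtain ⟨J, hJ⟩ := h1.bddAbove
    have h2 : ∀ j, J < j → c j = 0 := by
      intro j hj
      by_contra hne
      exact absurd (hJ hne) (not_le.2 hj)
    have h3 : ∀ k, 2 ^ k * |x (J + 1)| ≤ |x (J + 1 + k)| := by
      intro k
      induction k with
      | zero => simp
      | succ k ih =>
        have h4 := hc (J + 1 + k)
        rw [h2 _ (by omega), Int.cast_zero, zero_add] at h4
        have h5 : x (J + 1 + (k + 1)) = 2 ^ (al (J + 1 + k)) * x (J + 1 + k) := by
          rw [h4]; rfl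
        rw [h5, abs_mul, abs_of_pos (by positivity : (0 : ℝ) < 2 ^ (al (J + 1 + k)))]
        have h6 : (2 : ℝ) ^ 1 ≤ 2 ^ (al (J + 1 + k)) :=
          pow_le_pow_right₀ (by norm_num) (by unfold al; omega)
        have h7 := abs_nonneg (x (J + 1 + k))
        rw [pow_succ]
        nlinarith
    have h4 : x (J + 1) = 0 := by
      by_contra hne
      have hpos : 0 < |x (J + 1)| := abs_pos.2 hne
      obtain ⟨k, hk⟩ := pow_unbounded_of_one_lt (1 / |x (J + 1)|) (by norm_num : (1 : ℝ) < 2)
      rw [div_lt_iff₀ hpos] at hk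
      have := h3 k
      have := hxle (J + 1 + k)
      linarith
    have h5 := hx (J + 1)
    rw [h4] at h5
    apply htor (2 ^ (A (J + 1))) (by positivity)
    rw [← natCast_zsmul]
    push_cast
    rw [h5]
    simp
  -- conclusion
  have hE : {p : Nd | ¬ (c (e p) = c (j1 (e p)) + c (j2 (e p)) ∧
      (c (e p) ≠ 0 → T (nd (e p)).1 = true))}.Finite := by
    have h1 := (hcons.and hoff)
    have h2 := e.injective.tendsto_cofinite.eventually h1
    rw [eventually_cofinite] at h2
    exact h2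
  refine flow (fun p => c (e p)) (fun s => T s = true) _ hE ?_ ?_ hfin hinf
  · intro s i hsi
    have h1 : c (e (s, i)) = c (j1 (e (s, i))) + c (j2 (e (s, i))) := by
      by_contra hne
      exact hsi (fun h => hne h.1)
    simpa [j1, j2] using h1
  · intro s i hsi hne
    have h1 : T (nd (e (s, i))).1 = true := by
      by_contra hT
      exact hsi (fun h => hT (h.2 hne))
    simpa using h1

end Pool.Agent.V11241.Rot
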