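import Mathlib

set_option autoImplicit false

/-!
A homeomorphism of the Cantor group which preserves first differences and is generic with respect
to translations.
-/

namespace Pool.Agent.V11241.Ent

open Filter Topology Set

/-- the Cantor group -/
abbrev Cz : Type := ℕ → ZMod 2

/-- the number of sequences of length `k` -/
def Lk (k : ℕ) : ℕ := Fintype.card (Fin k → ZMod 2)

/-- the code of the restriction to `k` -/
noncomputable def code (k : ℕ) (x : Cz) : ℕ :=
  (Fintype.equivFin (Fin k → ZMod 2) (fun i => x i) : Fin (Fintype.card (Fin k → ZMod 2))).val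

theorem code_lt (k : ℕ) (x : Cz) : code k x < Lk k := Fin.isLt _

theorem code_congr {k : ℕ} {x y : Cz} (h : ∀ m < k, x m = y m) : code k x = code k y := by
  unfold code
  have : (fun i : Fin k => x i) = fun i : Fin k => y i := funext fun i => h i i.2
  rw [this]

theorem code_inj {k : ℕ} {x y : Cz} (h : code k x = code k y) : ∀ m < k, x m = y m := by
  unfold code at h
  have h1 := (Fintype.equivFin (Fin k → ZMod 2)).injective (Fin.ext h)
  intro m hm
  exact congrFun h1 ⟨m, hm⟩

/-- the correction at level `n` -/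
noncomputable def cc (n : ℕ) (x : Cz) : ZMod 2 :=
  if (Nat.unpair n).1 + Lk (Nat.unpair n).1 ≤ n then
    x ((Nat.unpair n).1 + code (Nat.unpair n).1 x) else 0

theorem cc_congr {n : ℕ} {x y : Cz} (h : ∀ m < n, x m = y m) : cc n x = cc n y := by
  unfold cc
  split_ifs with h1
  · have h2 := code_lt (Nat.unpair n).1 x
    have h3 : code (Nat.unpair n).1 x = code (Nat.unpair n).1 y :=
      code_congr fun m hm => h m (by omega)
    rw [← h3]
    exact h _ (by omega)
  · rfl

/-- the homeomorphism -/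
noncomputable def phi (x : Cz) : Cz := fun n => x n + cc n x

theorem phi_congr {n : ℕ} {x y : Cz} (h : ∀ m < n, x m = y m) : ∀ m < n, phi x m = phi y m := by
  intro m hm
  unfold phi
  rw [h m hm, cc_congr fun j hj => h j (hj.trans hm)]

theorem phi_ne {n : ℕ} {x y : Cz} (h : ∀ m < n, x m = y m) (hn : x n ≠ y n) :
    phi x n ≠ phi y n := by
  unfold phi
  rw [cc_congr h]
  intro h1
  exact hn (add_right_cancel h1)

theorem exists_first {x y : Cz} (h : x ≠ y) : ∃ n, (∀ m < n, x m = y m) ∧ x n ≠ y n := by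
  classical
  have h1 : ∃ n, x n ≠ y n := Function.ne_iff.1 h
  refine ⟨Nat.find h1, fun m hm => ?_, Nat.find_spec h1⟩
  by_contra h2
  exact Nat.find_min h1 hm h2

theorem phi_injective : Function.Injective phi := by
  intro x y h
  by_contra hne
  obtain ⟨n, h1, h2⟩ := exists_first hne
  exact phi_ne h1 h2 (congrFun h n)

theorem continuous_of_congr (F : Cz → ZMod 2) (n : ℕ)
    (h : ∀ x y : Cz, (∀ m < n, x m = y m) → F x = F y) : Continuous F := by
  let r : Cz → (Fin n → ZMod 2) := fun x i => x i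
  let e : (Fin n → ZMod 2) → Cz := fun s m => if hm : m < n then s ⟨m, hm⟩ else 0
  have h1 : F = (fun s => F (e s)) ∘ r := by
    funext x
    apply h
    intro m hm
    simp [e, r, hm]
  rw [h1]
  exact (continuous_of_discreteTopology (f := fun s => F (e s))).comp
    (continuous_pi fun i => continuous_apply _)

theorem continuous_phi : Continuous phi := by
  refine continuous_pi fun n => ?_
  apply continuous_of_congr _ (n + 1)
  intro x y h
  exact phi_congr h n (Nat.lt_succ_self n)

theorem dense_prop {k : ℕ} (I : Finset (Fin k)) (g : Fin k → Cz) (hg : Set.InjOn g I)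
    (t : Fin k → ZMod 2) (x0 : Cz) (N : ℕ) :
    ∃ x : Cz, (∀ m < N, x m = x0 m) ∧ ∃ n ≥ N, ∀ i ∈ I, phi (g i + x) n = t i := by
  classical
  -- a level at which the translations are different
  obtain ⟨K, hKN, hK⟩ : ∃ K ≥ N, ∀ i ∈ I, ∀ j ∈ I, i ≠ j → ∃ m < K, g i m ≠ g j m := by
    have h1 : ∀ i j : Fin k, ∃ m, i ∈ I → j ∈ I → i ≠ j → g i m ≠ g j m := by
      intro i j
      by_cases h : i ∈ I ∧ j ∈ I ∧ i ≠ j
      · have h2 : g i ≠ g j := fun h3 => h.2.2 (hg h.1 h.2.1 h3)
        obtain ⟨m, hm⟩ := Function.ne_iff.1 h2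
        exact ⟨m, fun _ _ _ => hm⟩
      · exact ⟨0, fun a b c => absurd ⟨a, b, c⟩ h⟩
    choose M hM using h1
    refine ⟨max N ((Finset.univ.sup fun p : Fin k × Fin k => M p.1 p.2) + 1), le_max_left _ _, ?_⟩
    intro i hi j hj hij
    refine ⟨M i j, ?_, hM i j hi hj hij⟩
    have h2 : M i j ≤ Finset.univ.sup fun p : Fin k × Fin k => M p.1 p.2 :=
      Finset.le_sup (f := fun p : Fin k × Fin k => M p.1 p.2) (Finset.mem_univ (i, j))
    exact lt_of_lt_of_le (Nat.lt_succ_of_le h2) (le_max_right _ _)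
  let n := Nat.pair K (K + Lk K)
  have hn1 : (Nat.unpair n).1 = K := by simp [n]
  have hn2 : K + Lk K ≤ n := Nat.right_le_pair _ _
  let cd : Fin k → ℕ := fun i => code K (g i + x0)
  have hcd : ∀ i ∈ I, ∀ j ∈ I, cd i = cd j → i = j := by
    intro i hi j hj h
    by_contra hij
    obtain ⟨m, hm, hne⟩ := hK i hi j hj hij
    have h1 := code_inj h m hm
    simp only [Pi.add_apply] at h1
    exact hne (add_right_cancel h1)
  let x : Cz := fun m => if m < K then x0 m else
    if h : ∃ i ∈ I, m = K + cd i then g h.choose m + t h.choose + g h.choose n else 0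
  have hxK : ∀ m < K, x m = x0 m := by
    intro m hm
    simp [x, hm]
  have hcode : ∀ i, code K (g i + x) = cd i := by
    intro i
    apply code_congr
    intro m hm
    simp only [Pi.add_apply]
    rw [hxK m hm]
  have hxi : ∀ i ∈ I, x (K + cd i) = g i (K + cd i) + t i + g i n := by
    intro i hi
    have h1 : ∃ j ∈ I, K + cd i = K + cd j := ⟨i, hi, rfl⟩
    have h2 : h1.choose = i := by
      apply hcd _ h1.choose_spec.1 _ hi
      have := h1.choose_spec.2
      omega
    have h3 : ¬ (K + cd i < K) := by omega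
    simp only [x, if_neg h3, dif_pos h1]
    rw [h2]
  have hxn : x n = 0 := by
    have h3 : ¬ (n < K) := by omega
    have h1 : ¬ ∃ j ∈ I, n = K + cd j := by
      rintro ⟨j, -, hj⟩
      have := code_lt K (g j + x0)
      simp only [cd] at hj
      omega
    simp only [x, if_neg h3, dif_neg h1]
  refine ⟨x, fun m hm => hxK m (lt_of_lt_of_le hm hKN), n, hKN.le.trans (by omega), ?_⟩
  intro i hi
  unfold phi cc
  rw [hn1, if_pos hn2, hcode i]
  simp only [Pi.add_apply]
  rw [hxi i hi, hxn]
  have h2 : ∀ a : ZMod 2, a + a = 0 := by decide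
  calc g i n + 0 + (g i (K + cd i) + (g i (K + cd i) + t i + g i n))
      = (g i n + g i n) + (g i (K + cd i) + g i (K + cd i)) + t i := by ring
    _ = t i := by rw [h2, h2, zero_add, zero_add]

/-- the generic property -/
def Gn {k : ℕ} (I : Finset (Fin k)) (g : Fin k → Cz) (t : Fin k → ZMod 2) (x : Cz) : Prop :=
  ∀ N, ∃ n ≥ N, ∀ i ∈ I, phi (g i + x) n = t i

theorem cyl_open (x0 : Cz) (N : ℕ) : IsOpen {x : Cz | ∀ m < N, x m = x0 m} := by
  have : {x : Cz | ∀ m < N, x m = x0 m} = ⋂ m ∈ Finset.range N, {x : Cz | x m = x0 m} := by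
    ext x
    simp
  rw [this]
  refine isOpen_biInter_finset fun m _ => ?_
  have hc : Continuous fun x : Cz => x m := continuous_apply m
  exact (isOpen_discrete ({x0 m} : Set (ZMod 2))).preimage hc

theorem exists_cyl {U : Set Cz} (hU : IsOpen U) {x0 : Cz} (hx : x0 ∈ U) :
    ∃ N, ∀ x : Cz, (∀ m < N, x m = x0 m) → x ∈ U := by
  obtain ⟨I, u, hu1, hu2⟩ := isOpen_pi_iff.1 hU x0 hx
  refine ⟨I.sup (fun i => i + 1), fun x hx => hu2 ?_⟩
  intro i hi
  have h1 : i < I.sup (fun i => i + 1) :=
    lt_of_lt_of_le (Nat.lt_succ_self i) (Finset.le_sup (f := fun i => i + 1) hi)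
  rw [hx i h1]
  exact (hu1 i hi).2

theorem generic {k : ℕ} (I : Finset (Fin k)) (g : Fin k → Cz) (hg : Set.InjOn g I)
    (t : Fin k → ZMod 2) : ∀ᶠ x in residual Cz, Gn I g t x := by
  unfold Gn
  rw [eventually_countable_forall]
  intro N
  have hopen : ∀ n, IsOpen {x : Cz | ∀ i ∈ I, phi (g i + x) n = t i} := by
    intro n
    have h1 : {x : Cz | ∀ i ∈ I, phi (g i + x) n = t i} =
        ⋂ i ∈ I, {x : Cz | phi (g i + x) n = t i} := by
      ext x
      simp
    rw [h1]
    refine isOpen_biInter_finset fun i _ => ?_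
    exact (isOpen_discrete ({t i} : Set (ZMod 2))).preimage
      ((continuous_apply n).comp (continuous_phi.comp (continuous_const.add continuous_id)))
  have h2 : {x : Cz | ∃ n ≥ N, ∀ i ∈ I, phi (g i + x) n = t i} =
      ⋃ n ≥ N, {x : Cz | ∀ i ∈ I, phi (g i + x) n = t i} := by
    ext x
    simp
  apply residual_of_dense_open
  · rw [h2]
    exact isOpen_biUnion fun n _ => hopen n
  · rw [dense_iff_inter_open]
    rintro U hU ⟨x0, hx0⟩
    obtain ⟨M, hM⟩ := exists_cyl hU hx0
    obtain ⟨x, hx1, n, hn, hx2⟩ := dense_prop I g hg t x0 (max M N)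
    exact ⟨x, hM x fun m hm => hx1 m (lt_of_lt_of_le hm (le_max_left _ _)),
      n, (le_max_right _ _).trans hn, hx2⟩

end Pool.Agent.V11241.Ent
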