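import Pool.Agent.V11241.Ent1
import Pool.Agent.Results.MP_b9a716_gt.MooreLSpace

set_option autoImplicit false
set_option linter.unusedSectionVars false

/-!
A sequence of length omega_1 in the Cantor group which is generic over its initial segments (under
the continuum hypothesis).
-/

namespace Pool.Agent.V11241.Ent

open Filter Topology Set
open Pool.Agent.Results.MP_b9a716_gt.MooreLSpace

variable {W : Type} [LinearOrder W] [OrderBot W] [WellFoundedLT W] [Om W]

/-- the section of a set at a tuple -/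
def sec {l : ℕ} (D : Set (Fin (l + 1) → Cz)) (u : Fin l → Cz) : Set Cz :=
  {y | (Fin.cons y u : Fin (l + 1) → Cz) ∈ D}

theorem continuous_cons {l : ℕ} (u : Fin l → Cz) :
    Continuous fun y : Cz => (Fin.cons y u : Fin (l + 1) → Cz) := by
  refine continuous_pi fun i => ?_
  refine Fin.cases ?_ (fun j => ?_) i
  · simpa using continuous_id'
  · simpa using continuous_const

theorem continuous_cons' {l : ℕ} (y : Cz) :
    Continuous fun u : Fin l → Cz => (Fin.cons y u : Fin (l + 1) → Cz) := by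
  refine continuous_pi fun i => ?_
  refine Fin.cases ?_ (fun j => ?_) i
  · simpa using continuous_const
  · simpa using continuous_apply j

/-- the requirements on the point `y` put at the place `α` after `f` -/
structure Req (C : W → Σ l : ℕ, Set (Fin (l + 1) → Cz)) (α : W) (f : W → Cz) (y : Cz) : Prop where
  r1 : ∀ ξ : Set.Iio α, ∀ b : Fin (C ξ).1 → Set.Iio α,
    y ∉ frontier (sec (C ξ).2 fun i => f (b i))
  r2 : ∀ (k : ℕ) (I : Finset (Fin k)) (S : Fin k → Finset (Set.Iio α)) (t : Fin k → ZMod 2),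
    Set.InjOn (fun i => ∑ β ∈ S i, f β) I → Gn I (fun i => ∑ β ∈ S i, f β) t y

theorem Req.congr {C : W → Σ l : ℕ, Set (Fin (l + 1) → Cz)} {α : W} {f f' : W → Cz} {y : Cz}
    (h : Req C α f y) (hff : ∀ β < α, f β = f' β) : Req C α f' y := by
  refine ⟨fun ξ b => ?_, fun k I S t hI => ?_⟩
  · have h1 : (fun i => f' (b i)) = fun i => f (b i) := funext fun i => (hff _ (b i).2).symm
    rw [h1]
    exact h.r1 ξ b
  · have h1 : (fun i => ∑ β ∈ S i, f' β) = fun i => ∑ β ∈ S i, f β :=
      funext fun i => Finset.sum_congr rfl fun β _ => (hff _ β.2).symm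
    rw [h1] at hI ⊢
    exact h.r2 k I S t hI

theorem exists_req {C : W → Σ l : ℕ, Set (Fin (l + 1) → Cz)} (hC : ∀ ξ, IsClosed (C ξ).2)
    (α : W) (f : W → Cz) : ∃ y, Req C α f y := by
  have hc : Countable (Set.Iio α) := (Om.countable_Iio α).to_subtype
  have h1 : ∀ᶠ y in residual Cz, ∀ ξ : Set.Iio α, ∀ b : Fin (C ξ).1 → Set.Iio α,
      y ∉ frontier (sec (C ξ).2 fun i => f (b i)) := by
    rw [eventually_countable_forall]
    intro ξ
    rw [eventually_countable_forall]
    intro b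
    have h2 : IsClosed (sec (C ξ).2 fun i => f (b i)) := (hC ξ).preimage (continuous_cons _)
    exact residual_of_dense_open isClosed_frontier.isOpen_compl
      (interior_eq_empty_iff_dense_compl.1 (interior_frontier h2))
  have h2 : ∀ᶠ y in residual Cz, ∀ (k : ℕ) (I : Finset (Fin k)) (S : Fin k → Finset (Set.Iio α))
      (t : Fin k → ZMod 2),
      Set.InjOn (fun i => ∑ β ∈ S i, f β) I → Gn I (fun i => ∑ β ∈ S i, f β) t y := by
    rw [eventually_countable_forall]
    intro k
    rw [eventually_countable_forall]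
    intro I
    rw [eventually_countable_forall]
    intro S
    rw [eventually_countable_forall]
    intro t
    by_cases hI : Set.InjOn (fun i => ∑ β ∈ S i, f β) I
    · filter_upwards [generic I _ hI t] with y hy _
      exact hy
    · exact Filter.Eventually.of_forall fun y h => absurd h hI
  obtain ⟨y, hy⟩ := (dense_of_mem_residual (h1.and h2)).nonempty
  exact ⟨y, hy.1, hy.2⟩

theorem exists_seq {C : W → Σ l : ℕ, Set (Fin (l + 1) → Cz)} (hC : ∀ ξ, IsClosed (C ξ).2) :
    ∃ x : W → Cz, ∀ α, Req C α x (x α) := by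
  classical
  let F : ∀ α : W, (∀ β : W, β < α → Cz) → Cz := fun α ih =>
    Classical.choose (exists_req hC α fun β => if h : β < α then ih β h else 0)
  let x : W → Cz := (wellFounded_lt (α := W)).fix F
  refine ⟨x, fun α => ?_⟩
  have h1 : x α = F α fun β _ => x β := (wellFounded_lt (α := W)).fix_eq F α
  have h2 := Classical.choose_spec (exists_req hC α fun β => if h : β < α then x β else 0)
  have h3 : x α = Classical.choose (exists_req hC α fun β => if h : β < α then x β else 0) := h1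
  rw [← h3] at h2
  refine h2.congr fun β hβ => ?_
  simp [hβ]

open Cardinal in
theorem exists_codes (hW : #W = Cardinal.continuum) :
    ∃ C : W → Σ l : ℕ, Set (Fin (l + 1) → Cz), (∀ ξ, IsClosed (C ξ).2) ∧
      ∀ (l : ℕ) (D : Set (Fin (l + 1) → Cz)), IsClosed D → ∃ ξ, C ξ = ⟨l, D⟩ := by
  have h1 : ∀ l : ℕ, ∃ B : ℕ → Set (Fin (l + 1) → Cz), (∀ n, IsOpen (B n)) ∧
      ∀ U : Set (Fin (l + 1) → Cz), IsOpen U → ∃ S : Set ℕ, U = ⋃ n ∈ S, B n := by
    intro l
    obtain ⟨b, hbc, -, hb⟩ := TopologicalSpace.exists_countable_basis (Fin (l + 1) → Cz)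
    have hbn : b.Nonempty := by
      obtain ⟨v, hv, -⟩ := hb.exists_subset_of_mem_open (Set.mem_univ (0 : Fin (l + 1) → Cz))
        isOpen_univ
      exact ⟨v, hv⟩
    obtain ⟨B, hB⟩ := hbc.exists_eq_range hbn
    refine ⟨B, fun n => hb.isOpen (hB ▸ ⟨n, rfl⟩), fun U hU => ⟨{n | B n ⊆ U}, ?_⟩⟩
    ext x
    constructor
    · intro hx
      obtain ⟨v, hv, hxv, hvU⟩ := hb.exists_subset_of_mem_open hx hU
      rw [hB] at hv
      obtain ⟨n, rfl⟩ := hv
      exact Set.mem_iUnion₂.2 ⟨n, hvU, hxv⟩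
    · intro hx
      obtain ⟨n, hn, hxn⟩ := Set.mem_iUnion₂.1 hx
      exact hn hxn
  choose B hB1 hB2 using h1
  have h2 : #(ℕ × Set ℕ) = #W := by
    rw [hW]
    simp
  obtain ⟨e⟩ := Cardinal.eq.1 h2
  refine ⟨fun ξ => ⟨(e.symm ξ).1, (⋃ n ∈ (e.symm ξ).2, B (e.symm ξ).1 n)ᶜ⟩, ?_, ?_⟩
  · intro ξ
    exact (isOpen_biUnion fun n _ => hB1 _ n).isClosed_compl
  · intro l D hD
    obtain ⟨S, hS⟩ := hB2 l Dᶜ hD.isOpen_compl
    refine ⟨e (l, S), ?_⟩
    have h3 : ∀ p : ℕ × Set ℕ, p = (l, S) →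
        (⟨p.1, (⋃ n ∈ p.2, B p.1 n)ᶜ⟩ : Σ l : ℕ, Set (Fin (l + 1) → Cz)) = ⟨l, D⟩ := by
      rintro _ rfl
      simp only
      rw [← hS, compl_compl]
    exact h3 _ (e.symm_apply_apply _)

/-- a generic sequence -/
structure GSeq (x : W → Cz) : Prop where
  r1 : ∀ (l : ℕ) (D : Set (Fin (l + 1) → Cz)), IsClosed D → ∃ δ : W, ∀ α > δ, ∀ b : Fin l → W,
    (∀ i, b i < α) → x α ∉ frontier (sec D fun i => x (b i))
  r2 : ∀ (α : W) (k : ℕ) (I : Finset (Fin k)) (S : Fin k → Finset W) (t : Fin k → ZMod 2),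
    (∀ i, ∀ β ∈ S i, β < α) → Set.InjOn (fun i => ∑ β ∈ S i, x β) I →
      Gn I (fun i => ∑ β ∈ S i, x β) t (x α)

theorem exists_gseq (hW : Cardinal.mk W = Cardinal.continuum) : ∃ x : W → Cz, GSeq x := by
  classical
  obtain ⟨C, hC1, hC2⟩ := exists_codes hW
  obtain ⟨x, hx⟩ := exists_seq hC1
  refine ⟨x, ?_, ?_⟩
  · intro l D hD
    obtain ⟨ξ, hξ⟩ := hC2 l D hD
    refine ⟨ξ, fun α hα b hb => ?_⟩
    have h1 := (hx α).r1 ⟨ξ, hα⟩
    simp only at h1
    rw [hξ] at h1
    exact h1 fun i => ⟨b i, hb i⟩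
  · intro α k I S t hS hI
    have h1 : ∀ i, ∑ β ∈ (S i).subtype (fun β => β < α), x β = ∑ β ∈ S i, x β := fun i =>
      Finset.sum_subtype_of_mem x (hS i)
    have h2 := (hx α).r2 k I (fun i => (S i).subtype fun β => β < α) t
    have h3 : (fun i => ∑ β ∈ (S i).subtype (fun β => β < α), x β) = fun i => ∑ β ∈ S i, x β :=
      funext h1
    rw [← h3] at hI ⊢
    exact h2 hI

theorem GSeq.star {x : W → Cz} (hx : GSeq x) : ∀ (l : ℕ) (D : Set (Fin l → Cz)), IsClosed D →
    ∃ δ : W, ∀ b : Fin l → W, StrictAnti b → (∀ j, δ < b j) → (fun j => x (b j)) ∈ D →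
      (fun j => x (b j)) ∈ interior D
  | 0, D, _ => by
    refine ⟨⊥, fun b _ _ h => ?_⟩
    have h1 : D = Set.univ := by
      rw [Set.eq_univ_iff_forall]
      intro u
      rwa [Subsingleton.elim u fun j => x (b j)]
    rw [h1, interior_univ]
    trivial
  | l + 1, D, hD => by
    let D' : Set Cz → Set (Fin l → Cz) := fun U =>
      ⋂ y ∈ U, (fun u : Fin l → Cz => (Fin.cons y u : Fin (l + 1) → Cz)) ⁻¹' D
    have hD' : ∀ U, IsClosed (D' U) := fun U =>
      isClosed_biInter fun y _ => hD.preimage (continuous_cons' y)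
    choose δ hδ using fun U : Set Cz => GSeq.star hx l (D' U) (hD' U)
    obtain ⟨δ₁, hδ₁⟩ := hx.r1 l D hD
    obtain ⟨δ₂, hδ₂⟩ := Om.bdd (δ '' TopologicalSpace.countableBasis Cz)
      ((TopologicalSpace.countable_countableBasis Cz).image _)
    refine ⟨max δ₁ δ₂, fun b hb hlt hmem => ?_⟩
    let u : Fin l → Cz := fun j => x (b j.succ)
    have hcons : (fun j => x (b j)) = (Fin.cons (x (b 0)) u : Fin (l + 1) → Cz) := by
      funext j
      refine Fin.cases ?_ (fun i => ?_) j
      · simp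
      · simp [u]
    have h1 : x (b 0) ∈ sec D u := by
      rw [hcons] at hmem
      exact hmem
    have h2 := hδ₁ (b 0) ((le_max_left _ _).trans_lt (hlt 0)) (fun j => b j.succ) fun i =>
      hb (Fin.succ_pos i)
    have h3 : x (b 0) ∈ interior (sec D u) := by
      by_contra h4
      exact h2 ⟨subset_closure h1, h4⟩
    obtain ⟨U, hU, hxU, hUs⟩ := (TopologicalSpace.isBasis_countableBasis Cz).exists_subset_of_mem_open
      h3 isOpen_interior
    have hUo : IsOpen U := TopologicalSpace.isOpen_of_mem_countableBasis hU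
    have h5 : u ∈ D' U := by
      refine Set.mem_iInter₂.2 fun y hy => ?_
      have h9 : y ∈ sec D u := interior_subset (hUs hy)
      exact h9
    have h6 : u ∈ interior (D' U) := by
      apply hδ U (fun j => b j.succ) _ _ h5
      · intro i j hij
        exact hb (Fin.succ_lt_succ_iff.2 hij)
      · intro j
        exact ((hδ₂ _ ⟨U, hU, rfl⟩).trans_le (le_max_right _ _)).trans (hlt j.succ)
    rw [hcons]
    refine mem_interior.2 ⟨{f | f 0 ∈ U ∧ (fun j : Fin l => f j.succ) ∈ interior (D' U)}, ?_, ?_, ?_⟩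
    · rintro f ⟨hf1, hf2⟩
      have h7 := Set.mem_iInter₂.1 (interior_subset hf2) (f 0) hf1
      have h8 : (Fin.cons (f 0) (fun j : Fin l => f j.succ) : Fin (l + 1) → Cz) = f :=
        Fin.cons_self_tail f
      rw [Set.mem_preimage, h8] at h7
      exact h7
    · apply IsOpen.inter
      · exact hUo.preimage (continuous_apply 0)
      · exact isOpen_interior.preimage (continuous_pi fun j => continuous_apply _)
    · refine ⟨?_, ?_⟩
      · simpa using hxU
      · simpa using h6

end Pool.Agent.V11241.Ent
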