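import Pool.Agent.V11241.Ent2

set_option autoImplicit false
set_option linter.unusedSectionVars false

/-!
The group spanned by a generic sequence is entangled.
-/

namespace Pool.Agent.V11241.Ent

open Filter Topology Set
open Pool.Agent.Results.MP_b9a716_gt.MooreLSpace

variable {W : Type} [LinearOrder W] [OrderBot W] [WellFoundedLT W] [Om W]

theorem two_zero (a : ZMod 2) : a + a = 0 := by
  revert a
  decide

theorem Cz_two (a : Cz) : a + a = 0 := by
  funext n
  exact two_zero (a n)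

/-- the sums of the members of `x` with index in `A` -/
def Sp (x : W → Cz) (A : Set W) : Set Cz := {g | ∃ S : Finset W, ↑S ⊆ A ∧ g = ∑ β ∈ S, x β}

theorem Sp_zero (x : W → Cz) (A : Set W) : (0 : Cz) ∈ Sp x A := ⟨∅, by simp, by simp⟩

theorem Sp_x_add {x : W → Cz} {A : Set W} {β : W} (hβ : β ∈ A) {g : Cz} (hg : g ∈ Sp x A) :
    x β + g ∈ Sp x A := by
  classical
  obtain ⟨S, hS, rfl⟩ := hg
  by_cases h : β ∈ S
  · refine ⟨S.erase β, (Finset.coe_subset.2 (Finset.erase_subset _ _)).trans hS, ?_⟩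
    rw [← Finset.add_sum_erase S x h, ← add_assoc, Cz_two, zero_add]
  · refine ⟨insert β S, ?_, ?_⟩
    · rw [Finset.coe_insert]
      exact Set.insert_subset hβ hS
    · rw [Finset.sum_insert h]

theorem Sp_add {x : W → Cz} {A : Set W} {g h : Cz} (hg : g ∈ Sp x A) (hh : h ∈ Sp x A) :
    g + h ∈ Sp x A := by
  classical
  obtain ⟨S, hS, rfl⟩ := hg
  induction S using Finset.induction_on with
  | empty => simpa using hh
  | insert β S hβ ih =>
    rw [Finset.coe_insert, Set.insert_subset_iff] at hS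
    rw [Finset.sum_insert hβ, add_assoc]
    exact Sp_x_add hS.1 (ih hS.2)

theorem Sp_x {x : W → Cz} {A : Set W} {β : W} (hβ : β ∈ A) : x β ∈ Sp x A := by
  have := Sp_x_add hβ (Sp_zero x A)
  rwa [add_zero] at this

theorem Sp_sum {x : W → Cz} {A : Set W} {ι : Type} (s : Finset ι) (f : ι → Cz)
    (hf : ∀ i ∈ s, f i ∈ Sp x A) : ∑ i ∈ s, f i ∈ Sp x A := by
  classical
  induction s using Finset.induction_on with
  | empty => simpa using Sp_zero x A
  | insert i s hi ih =>
    rw [Finset.sum_insert hi]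
    exact Sp_add (hf i (Finset.mem_insert_self _ _)) (ih fun j hj => hf j (Finset.mem_insert_of_mem hj))

theorem Sp_countable (x : W → Cz) {A : Set W} (hA : A.Countable) : (Sp x A).Countable := by
  have hc : Countable A := hA.to_subtype
  refine (Set.countable_range fun S : Finset A => ∑ β ∈ S, x β).mono ?_
  rintro _ ⟨S, hS, rfl⟩
  classical
  refine ⟨S.subtype (fun β => β ∈ A), ?_⟩
  exact Finset.sum_subtype_of_mem x hS

/-- the root part -/
def rt {k : ℕ} (x : W → Cz) (G : List (W × (Fin k → Bool))) (i : Fin k) : Cz :=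
  (G.map fun p => if p.2 i then x p.1 else 0).sum

theorem rt_mem {k : ℕ} {x : W → Cz} {G : List (W × (Fin k → Bool))} {A : Set W}
    (hG : ∀ p ∈ G, p.1 ∈ A) (i : Fin k) : rt x G i ∈ Sp x A := by
  induction G with
  | nil => exact Sp_zero x A
  | cons p G ih =>
    have h1 := ih fun q hq => hG q (List.mem_cons_of_mem _ hq)
    unfold rt at h1 ⊢
    rw [List.map_cons, List.sum_cons]
    by_cases h : p.2 i
    · rw [if_pos h]
      exact Sp_x_add (hG p List.mem_cons_self) h1
    · rw [if_neg h, zero_add]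
      exact h1

/-- the upper part -/
def up {k l : ℕ} (x : W → Cz) (M : Fin k → Fin l → Bool) (b : Fin l → W) (i : Fin k) : Cz :=
  ∑ j, if M i j then x (b j) else 0

theorem decompose {k : ℕ} (x : W → Cz) (δ : W) (a : Fin k → Cz) (ha : ∀ i, a i ∈ Sp x Set.univ)
    (hn : ∀ i, a i ∉ Sp x (Set.Iio δ)) : ∃ (l : ℕ) (M : Fin k → Fin l → Bool)
      (G : List (W × (Fin k → Bool))) (b : Fin l → W), (∀ i, ∃ j, M i j = true) ∧
      (∀ p ∈ G, p.1 < δ) ∧ StrictAnti b ∧ (∀ j, δ ≤ b j) ∧ ∀ i, a i = rt x G i + up x M b i := by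
  classical
  choose S hS hSa using ha
  let T : Finset W := Finset.univ.biUnion S
  let T0 := T.filter (fun ξ => ξ < δ)
  let T1 := T.filter (fun ξ => ¬ ξ < δ)
  let G : List (W × (Fin k → Bool)) := T0.toList.map fun ξ => (ξ, fun i => decide (ξ ∈ S i))
  let b : Fin T1.card → W := fun j => T1.orderEmbOfFin rfl (Fin.rev j)
  let M : Fin k → Fin T1.card → Bool := fun i j => decide (b j ∈ S i)
  have hG : ∀ p ∈ G, p.1 < δ := by
    intro p hp
    obtain ⟨ξ, hξ, rfl⟩ := List.mem_map.1 hp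
    rw [Finset.mem_toList] at hξ
    exact (Finset.mem_filter.1 hξ).2
  have hb : StrictAnti b := by
    intro i j hij
    exact (T1.orderEmbOfFin rfl).strictMono (Fin.rev_lt_rev.2 hij)
  have hbδ : ∀ j, δ ≤ b j := by
    intro j
    have h1 := Finset.orderEmbOfFin_mem T1 rfl (Fin.rev j)
    exact not_lt.1 (Finset.mem_filter.1 h1).2
  have hsum : ∀ i, a i = rt x G i + up x M b i := by
    intro i
    have h1 : a i = ∑ ξ ∈ T, if ξ ∈ S i then x ξ else 0 := by
      rw [hSa i, ← Finset.sum_filter]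
      apply Finset.sum_congr _ fun _ _ => rfl
      ext ξ
      simp only [T, Finset.mem_filter, Finset.mem_biUnion, Finset.mem_univ, true_and]
      exact ⟨fun h => ⟨⟨i, h⟩, h⟩, fun h => h.2⟩
    have h2 : rt x G i = ∑ ξ ∈ T0, if ξ ∈ S i then x ξ else 0 := by
      unfold rt
      rw [List.map_map, ← Finset.sum_map_toList]
      congr 1
      apply List.map_congr_left
      intro ξ _
      simp
    have h3 : up x M b i = ∑ ξ ∈ T1, if ξ ∈ S i then x ξ else 0 := by
      unfold up
      have h4 : (∑ j, if M i j = true then x (b j) else 0) =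
          ∑ j, (fun ξ => if ξ ∈ S i then x ξ else 0) (T1.orderEmbOfFin rfl (Fin.revPerm j)) := by
        apply Finset.sum_congr rfl
        intro j _
        simp [M, b]
      rw [h4, Equiv.sum_comp Fin.revPerm
        (fun j => (fun ξ => if ξ ∈ S i then x ξ else 0) (T1.orderEmbOfFin rfl j))]
      rw [← Finset.sum_coe_sort T1, ← Equiv.sum_comp (T1.orderIsoOfFin rfl).toEquiv]
      apply Finset.sum_congr rfl
      intro j _
      simp
    rw [h1, h2, h3]
    exact (Finset.sum_filter_add_sum_filter_not T (fun ξ => ξ < δ) _).symm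
  refine ⟨T1.card, M, G, b, ?_, hG, hb, hbδ, hsum⟩
  intro i
  by_contra hcon
  push Not at hcon
  apply hn i
  rw [hsum i]
  have h1 : up x M b i = 0 := by
    unfold up
    apply Finset.sum_eq_zero
    intro j _
    rw [if_neg (hcon j)]
  rw [h1, add_zero]
  exact rt_mem hG i

theorem exists_data {k : ℕ} (x : W → Cz) (a : W → Fin k → Cz)
    (ha : ∀ δ i, a δ i ∈ Sp x Set.univ) (hn : ∀ δ i, a δ i ∉ Sp x (Set.Iio δ)) :
    ∃ (l : ℕ) (M : Fin k → Fin l → Bool) (G : List (W × (Fin k → Bool))),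
      (∀ i, ∃ j, M i j = true) ∧ ∀ γ, ∃ (δ : W) (b : Fin l → W), StrictAnti b ∧
        (∀ j, γ ≤ b j) ∧ ∀ i, a δ i = rt x G i + up x M b i := by
  by_contra hcon
  push Not at hcon
  have h1 : ∀ D : (Σ l : ℕ, (Fin k → Fin l → Bool)) × List (W × (Fin k → Bool)), ∃ γ : W,
      (∀ i, ∃ j, D.1.2 i j = true) → ∀ (δ : W) (b : Fin D.1.1 → W), StrictAnti b →
        (∀ j, γ ≤ b j) → ∃ i, a δ i ≠ rt x D.2 i + up x D.1.2 b i := by
    intro D
    by_cases hD : ∀ i, ∃ j, D.1.2 i j = true
    · obtain ⟨γ, hγ⟩ := hcon D.1.1 D.1.2 D.2 hD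
      exact ⟨γ, fun _ => hγ⟩
    · exact ⟨⊥, fun h => absurd h hD⟩
  choose γ hγ using h1
  have hne : Nonempty (Σ l : ℕ, (Fin k → Fin l → Bool)) := ⟨⟨0, fun _ _ => false⟩⟩
  obtain ⟨en, hen⟩ := exists_en2 (W := W) (Σ l : ℕ, (Fin k → Fin l → Bool)) (Fin k → Bool)
  obtain ⟨δ, hδ, hb, hcl⟩ := closed_pt en γ
  obtain ⟨l, M, G, b, h2, h3, h4, h5, h6⟩ := decompose x δ (a δ) (ha δ) (hn δ)
  obtain ⟨d, hd, hd'⟩ := list_bound hδ hb G Prod.fst h3
  obtain ⟨n, hn⟩ := hen d (⟨l, M⟩, G) fun g hg => (hd' g hg).le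
  have hlt : γ (⟨l, M⟩, G) < δ := by
    rw [← hn]
    exact hcl d hd n
  obtain ⟨i, hi⟩ := hγ (⟨l, M⟩, G) h2 δ b h4 fun j => hlt.le.trans (h5 j)
  exact hi (h6 i)

theorem comb {x : W → Cz} (hx : GSeq x) {k : ℕ} (F : Set (Fin k → Cz))
    (hF : ∀ a ∈ F, ∀ i, a i ∈ Sp x Set.univ) (hinj : ∀ a ∈ F, Function.Injective a)
    (hdis : ∀ a ∈ F, ∀ a' ∈ F, a ≠ a' → ∀ i j, a i ≠ a' j) (hunc : ¬ F.Countable)
    (t : Fin k → ZMod 2) : ∃ a ∈ F, ∃ a' ∈ F, ∀ i, ∃ n, (∀ m < n, a i m = a' i m) ∧
      a i n ≠ a' i n ∧ phi (a i) n = t i := by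
  classical
  -- tuples far out
  have h1 : ∀ δ : W, ∃ a ∈ F, ∀ i, a i ∉ Sp x (Set.Iio δ) := by
    intro δ
    by_contra hcon
    push Not at hcon
    apply hunc
    choose i hi using fun a : F => hcon a.1 a.2
    have h2 : Countable (Sp x (Set.Iio δ)) :=
      (Sp_countable x (Om.countable_Iio δ)).to_subtype
    have h3 : Function.Injective fun a : F => (⟨a.1 (i a), hi a⟩ : Sp x (Set.Iio δ)) := by
      intro a a' h
      by_contra hne
      have h4 : a.1 (i a) = a'.1 (i a') := congrArg Subtype.val h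
      exact hdis a.1 a.2 a'.1 a'.2 (fun h5 => hne (Subtype.ext h5)) _ _ h4
    exact h3.countable
  choose a haF han using h1
  obtain ⟨l, M, G, hM, hD⟩ := exists_data x a (fun δ => hF _ (haF δ)) han
  let B : Set (Fin l → W) := {b | StrictAnti b ∧ ∃ δ, ∀ i, a δ i = rt x G i + up x M b i}
  let C : Set (Fin l → Cz) := closure ((fun b : Fin l → W => fun j => x (b j)) '' B)
  obtain ⟨δ₁, hδ₁⟩ := hx.star l C isClosed_closure
  obtain ⟨δ₂, hδ₂⟩ := bdd_range fun i : Fin G.length => (G.get i).1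
  have hδ₂' : ∀ g ∈ G, g.1 < δ₂ := by
    intro g hg
    obtain ⟨i, rfl⟩ := List.get_of_mem hg
    exact hδ₂ i
  obtain ⟨γ, hγ⟩ := Om.bdd {δ₁, δ₂} (by simp)
  have hγ1 : δ₁ < γ := hγ _ (by simp)
  have hγ2 : δ₂ < γ := hγ _ (by simp)
  obtain ⟨δ, b, hb, hbγ, hab⟩ := hD γ
  have hmem : (fun j => x (b j)) ∈ interior C := by
    apply hδ₁ b hb fun j => hγ1.trans_le (hbγ j)
    exact subset_closure ⟨b, ⟨hb, δ, hab⟩, rfl⟩
  -- a cylinder inside `C`
  obtain ⟨N₀, hN₀⟩ : ∃ N₀ : ℕ, ∀ u : Fin l → Cz, (∀ j, ∀ m < N₀, u j m = x (b j) m) → u ∈ C := by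
    obtain ⟨I, v, hv1, hv2⟩ := isOpen_pi_iff.1 isOpen_interior _ hmem
    have h2 : ∀ j, ∃ N, j ∈ I → ∀ y : Cz, (∀ m < N, y m = x (b j) m) → y ∈ v j := by
      intro j
      by_cases hj : j ∈ I
      · obtain ⟨N, hN⟩ := exists_cyl (hv1 j hj).1 (hv1 j hj).2
        exact ⟨N, fun _ => hN⟩
      · exact ⟨0, fun h => absurd h hj⟩
    choose N hN using h2
    refine ⟨Finset.univ.sup N, fun u hu => interior_subset (hv2 ?_)⟩
    intro j hj
    apply hN j hj
    intro m hm
    exact hu j m (lt_of_lt_of_le hm (Finset.le_sup (Finset.mem_univ j)))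
  -- the rows
  let I : Fin l → Finset (Fin k) := fun j =>
    Finset.univ.filter fun i => M i j = true ∧ ∀ j' < j, M i j' = false
  have hgen : ∀ j, ∀ N, ∃ n ≥ N, ∀ i ∈ I j, phi (a δ i) n = t i := by
    intro j
    have h2 : ∀ i, ∃ S : Finset W, (∀ β ∈ S, β < b j) ∧
        (i ∈ I j → a δ i = ∑ β ∈ S, x β + x (b j)) := by
      intro i
      by_cases hi : i ∈ I j
      · have hi' := (Finset.mem_filter.1 hi).2
        have h3 : rt x G i + ∑ j' ∈ Finset.univ.filter (fun j' => j < j'),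
            (if M i j' then x (b j') else 0) ∈ Sp x (Set.Iio (b j)) := by
          apply Sp_add
          · exact rt_mem (fun p hp => ((hδ₂' p hp).trans hγ2).trans_le (hbγ j)) i
          · apply Sp_sum
            intro j' hj'
            have hj'' := (Finset.mem_filter.1 hj').2
            split_ifs
            · exact Sp_x (hb hj'')
            · exact Sp_zero _ _
        obtain ⟨S, hS, hS'⟩ := h3
        refine ⟨S, fun β hβ => hS hβ, fun _ => ?_⟩
        rw [← hS', hab i, add_assoc]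
        congr 1
        unfold up
        rw [← Finset.sum_filter_add_sum_filter_not Finset.univ (fun j' => j < j')]
        congr 1
        rw [Finset.sum_eq_single j]
        · rw [if_pos hi'.1]
        · intro j' hj' hne
          have h4 := (Finset.mem_filter.1 hj').2
          have h5 : j' < j := lt_of_le_of_ne (not_lt.1 h4) hne
          rw [hi'.2 j' h5]
          simp
        · intro h4
          exact absurd (Finset.mem_filter.2 ⟨Finset.mem_univ j, lt_irrefl j⟩) h4
      · exact ⟨∅, by simp, fun h => absurd h hi⟩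
    choose S hS1 hS2 using h2
    have h3 := hx.r2 (b j) k (I j) S t hS1 (by
      intro i hi i' hi' h
      apply hinj _ (haF δ)
      rw [hS2 i hi, hS2 i' hi']
      simp only at h
      rw [h])
    intro N
    obtain ⟨n, hn, hn'⟩ := h3 N
    refine ⟨n, hn, fun i hi => ?_⟩
    rw [hS2 i hi]
    exact hn' i hi
  obtain ⟨ν, hν1, hν2⟩ := extraction_forall_of_frequently
    (P := fun j n => N₀ ≤ n ∧ ∀ h : j < l, ∀ i ∈ I ⟨j, h⟩, phi (a δ i) n = t i) (by
      intro j
      rw [frequently_atTop]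
      intro N
      by_cases hj : j < l
      · obtain ⟨n, hn, hn'⟩ := hgen ⟨j, hj⟩ (max N N₀)
        exact ⟨n, (le_max_left _ _).trans hn, (le_max_right _ _).trans hn, fun _ => hn'⟩
      · exact ⟨max N N₀, le_max_left _ _, le_max_right _ _, fun h => absurd h hj⟩)
  -- the second tuple
  let d : Fin l → Cz := fun j m => x (b j) m + if m = ν j then 1 else 0
  have hd : d ∈ C := by
    apply hN₀
    intro j m hm
    have h2 : m ≠ ν j := by
      have := (hν2 j).1
      omega
    simp [d, h2]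
  have hopen : IsOpen {u : Fin l → Cz | ∀ j : Fin l, ∀ m < ν j + 1, u j m = d j m} := by
    have h2 : {u : Fin l → Cz | ∀ j : Fin l, ∀ m < ν j + 1, u j m = d j m} =
        ⋂ j : Fin l, (fun u : Fin l → Cz => u j) ⁻¹' {y | ∀ m < ν j + 1, y m = d j m} := by
      ext u
      simp only [Set.mem_ofPred_eq, Set.mem_iInter, Set.mem_preimage]
    rw [h2]
    exact isOpen_iInter_of_finite fun j => (cyl_open _ _).preimage (continuous_apply j)
  obtain ⟨_, hu, b', ⟨hb', δ', hab'⟩, rfl⟩ := mem_closure_iff.1 hd _ hopen fun j m _ => rfl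
  refine ⟨a δ, haF δ, a δ', haF δ', fun i => ?_⟩
  -- the first nonzero index
  obtain ⟨j, hj1, hj2⟩ : ∃ j, M i j = true ∧ ∀ j' < j, M i j' = false := by
    obtain ⟨j, hj, hmin⟩ := (wellFounded_lt (α := Fin l)).has_min {j | M i j = true} (hM i)
    refine ⟨j, hj, fun j' hj' => ?_⟩
    by_contra h2
    exact hmin j' (by simpa using h2) hj'
  have key : ∀ m ≤ ν j, a δ' i m = a δ i m + if m = ν j then 1 else 0 := by
    intro m hm
    rw [hab i, hab' i]
    unfold up
    simp only [Pi.add_apply, Finset.sum_apply]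
    rw [add_assoc]
    congr 1
    have h2 : ∀ j' : Fin l, (if M i j' = true then x (b' j') else 0 : Cz) m =
        (if M i j' = true then x (b j') else 0 : Cz) m +
          if j' = j then (if m = ν j then 1 else 0) else 0 := by
      intro j'
      by_cases h3 : M i j' = true
      · have h4 : j ≤ j' := by
          by_contra h4
          rw [hj2 j' (not_le.1 h4)] at h3
          exact absurd h3 (by simp)
        have h5 : ν j ≤ ν j' := hν1.monotone h4
        rw [if_pos h3, if_pos h3]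
        have h6 : x (b' j') m = d j' m := hu j' m (by omega)
        rw [h6]
        simp only [d]
        congr 1
        by_cases h7 : j' = j
        · subst h7
          simp
        · have h8 : ν j < ν j' := by
            apply hν1
            have h9 : j < j' := lt_of_le_of_ne h4 (Ne.symm h7)
            exact h9
          rw [if_neg h7, if_neg (by omega)]
      · have h4 : j' ≠ j := by
          rintro rfl
          exact h3 hj1
        rw [if_neg h3, if_neg h3, if_neg h4, add_zero]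
    rw [Finset.sum_congr rfl fun j' _ => h2 j', Finset.sum_add_distrib]
    congr 1
    rw [Finset.sum_ite_eq' Finset.univ j]
    simp
  refine ⟨ν j, ?_, ?_, ?_⟩
  · intro m hm
    rw [key m hm.le, if_neg (Nat.ne_of_lt hm), add_zero]
  · rw [key (ν j) le_rfl, if_pos rfl]
    generalize a δ i (ν j) = c
    revert c
    decide
  · exact (hν2 j).2 j.2 i (Finset.mem_filter.2 ⟨Finset.mem_univ _, hj1, hj2⟩)

end Pool.Agent.V11241.Ent
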