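import Pool.Agent.Results.MP_b9a716_gt.MooreLSpace

set_option autoImplicit false
set_option linter.unusedSectionVars false
set_option linter.deprecated false

/-!
Two copies of Moore's L space, the second one shifted by one half below the diagonal: the sum is a
Rothberger space whose square is not Lindelof.
-/

namespace Pool.Agent.V11241.Roth

open Filter Topology Set
open Pool.Agent.Results.MP_b9a716_gt.MooreLSpace

variable {W : Type} [LinearOrder W] [OrderBot W] [WellFoundedLT W] [Om W]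

/-- A form of Moore's theorem with arbitrary targets. -/
theorem K2 {z : W → UnitAddCircle} (hz : Kr z) (β : W → W) (h1 : ∀ δ, δ ≤ β δ) (s : W → Finset W)
    (n : W → ℕ) (T : W → W → UnitAddCircle) : ∃ δ δ', β δ < δ' ∧
      ∀ ξ ∈ s δ, cd ξ (β δ') = cd ξ (β δ) ∨
        (ξ < β δ' ∧ ‖w z (β δ') ξ - T δ ξ‖ < 1 / ((n δ : ℝ) + 1)) := by
  classical
  let s' : W → Finset W := fun δ => insert (β δ) (s δ)
  let P : ((ℕ × ℕ) × List (W × ℕ)) → W → W → Prop := fun D γ δ =>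
    n δ = D.1.1 ∧ (∀ g ∈ D.2, cd g.1 (β δ) = g.2) ∧
      (∀ ξ ∈ s' δ, ξ ∉ D.2.map Prod.fst → γ ≤ ξ) ∧
      ((s' δ).filter (fun ξ => ξ ∉ D.2.map Prod.fst)).card = D.1.2
  obtain ⟨D, hD⟩ : ∃ D, ∀ γ, ∃ δ ≥ γ, P D γ δ := by
    by_contra hcon
    push Not at hcon
    choose γ hγ using hcon
    obtain ⟨en, hen⟩ := exists_en2 (W := W) (ℕ × ℕ) ℕ
    obtain ⟨δ, hδ, hb, hcl⟩ := closed_pt en γ
    let G : List (W × ℕ) := ((s' δ).filter (fun ξ => ξ < δ)).toList.map fun ξ => (ξ, cd ξ (β δ))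
    have hGfst : ∀ ξ, ξ ∈ G.map Prod.fst ↔ ξ ∈ s' δ ∧ ξ < δ := by
      intro ξ
      simp [G]
    let D : (ℕ × ℕ) × List (W × ℕ) :=
      ((n δ, ((s' δ).filter (fun ξ => ξ ∉ G.map Prod.fst)).card), G)
    have hGδ : ∀ g ∈ G, g.1 < δ := by
      intro g hg
      exact ((hGfst g.1).1 (List.mem_map.2 ⟨g, hg, rfl⟩)).2
    obtain ⟨d, hd, hd'⟩ := list_bound hδ hb G Prod.fst hGδ
    obtain ⟨j, hj⟩ := hen d D fun g hg => (hd' g hg).le
    have hlt : γ D < δ := by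
      rw [← hj]; exact hcl d hd j
    refine hγ D δ hlt.le ⟨rfl, ?_, ?_, rfl⟩
    · intro g hg
      obtain ⟨ξ, -, rfl⟩ := List.mem_map.1 hg
      rfl
    · intro ξ hξ hξ'
      have : ¬ ξ < δ := fun h => hξ' ((hGfst ξ).2 ⟨hξ, h⟩)
      exact hlt.le.trans (not_lt.1 this)
  obtain ⟨⟨n₀, m⟩, G⟩ := D
  -- bound of the root
  obtain ⟨γ₀, hγ₀⟩ := bdd_range fun i : Fin G.length => (G.get i).1
  have hγ₀' : ∀ g ∈ G, g.1 < γ₀ := by
    intro g hg
    obtain ⟨i, rfl⟩ := List.get_of_mem hg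
    exact hγ₀ i
  let AA₀ : Set (Fin m → W) := {a | Function.Injective a ∧ ∃ δ, n δ = n₀ ∧
    (∀ g ∈ G, cd g.1 (β δ) = g.2) ∧ (∃ i, a i = β δ) ∧
    ∀ ξ ∈ s' δ, ξ ∈ G.map Prod.fst ∨ ∃ i, a i = ξ}
  have hAA₀ : ∀ g, ∃ a ∈ AA₀, ∀ i, g ≤ a i := by
    intro g
    obtain ⟨δ, hδ, e2, e3, e4, e5⟩ := hD (max g γ₀)
    simp only at e2 e3 e4 e5
    let T := (s' δ).filter (fun ξ => ξ ∉ G.map Prod.fst)
    have hT : T.card = m := e5
    have hmem : ∀ ξ ∈ T, ∃ i, T.orderEmbOfFin hT i = ξ := by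
      intro ξ hξ
      have : ξ ∈ Set.range (T.orderEmbOfFin hT) := by
        rw [Finset.range_orderEmbOfFin]
        exact hξ
      exact this
    have hβ : β δ ∈ T := by
      rw [Finset.mem_filter]
      refine ⟨Finset.mem_insert_self _ _, fun h => ?_⟩
      obtain ⟨g', hg', hg''⟩ := List.mem_map.1 h
      have h4 := hγ₀' g' hg'
      rw [hg''] at h4
      exact absurd (((le_max_right g γ₀).trans hδ).trans (h1 δ)) (not_le.2 h4)
    refine ⟨T.orderEmbOfFin hT, ⟨(T.orderEmbOfFin hT).injective, δ, e2, e3, hmem _ hβ, ?_⟩, ?_⟩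
    · intro ξ hξ
      by_cases h : ξ ∈ G.map Prod.fst
      · exact Or.inl h
      · exact Or.inr (hmem ξ (Finset.mem_filter.2 ⟨hξ, h⟩))
    · intro i
      have := Finset.orderEmbOfFin_mem T hT i
      rw [Finset.mem_filter] at this
      exact (le_max_left _ _).trans (e4 _ this.1 this.2)
  -- fix the Kronecker bound
  obtain ⟨N, hN⟩ : ∃ N : ℕ, ∀ g, ∃ a ∈ AA₀, (∀ i, g ≤ a i) ∧
      ∀ (c : Fin m → ℕ) (t : Fin m → UnitAddCircle),
          ∃ j ≤ N, ∀ i, ‖(c i + j + 1) • z (a i) - t i‖ < 1 / ((n₀ : ℝ) + 1) := by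
    by_contra hcon
    push Not at hcon
    choose g hg using hcon
    obtain ⟨b, hb⟩ := bdd_range g
    obtain ⟨a, ha, hba⟩ := hAA₀ b
    obtain ⟨N, hN⟩ := hz.kr m a ha.1 (1 / ((n₀ : ℝ) + 1)) (by positivity)
    obtain ⟨c, t, hct⟩ := hg N a ha (fun i => (hb N).le.trans (hba i))
    obtain ⟨j, hj, hji⟩ := hN c t
    obtain ⟨i, hi⟩ := hct j hj
    exact absurd (hji i) (not_lt.2 hi)
  obtain ⟨a, ⟨⟨-, δ, e2, e3, ⟨i₀, hi₀⟩, e5⟩, hkr⟩, μ, b, hB, hosc⟩ := SGT (W := W) (m := m)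
    (AA := {a | a ∈ AA₀ ∧ ∀ (c : Fin m → ℕ) (t : Fin m → UnitAddCircle),
          ∃ j ≤ N, ∀ i, ‖(c i + j + 1) • z (a i) - t i‖ < 1 / ((n₀ : ℝ) + 1)})
    (by
      intro g
      obtain ⟨a, ha, hga, h⟩ := hN g
      exact ⟨a, ⟨ha, h⟩, hga⟩)
    (BB := {p | ∃ δ, p.1 = δ ∧ p.2 = β δ ∧ n δ = n₀ ∧ ∀ g ∈ G, cd g.1 (β δ) = g.2})
    (by
      rintro p ⟨δ, hp1, hp2, -⟩
      rw [hp1, hp2]
      exact h1 _)
    (by
      intro g
      obtain ⟨δ, hδ, e2, e3, -⟩ := hD (max g γ₀)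
      exact ⟨(δ, β δ), ⟨δ, rfl, rfl, e2, fun g' hg' => e3 g' hg'⟩, (le_max_left _ _).trans hδ⟩) N
  obtain ⟨j, hj, hji⟩ := hkr (fun i => osc (a i) (b 0)) (fun i => T δ (a i))
  obtain ⟨⟨δ', e6, e7, e9, e10⟩, hlt⟩ := hB j hj
  simp only at e6 e7
  refine ⟨δ, δ', ?_, ?_⟩
  · rw [← hi₀, ← e6]
    exact hlt i₀
  · intro ξ hξ
    rw [e2]
    rcases e5 ξ (Finset.mem_insert_of_mem hξ) with h | ⟨i, rfl⟩
    · obtain ⟨g, hg, rfl⟩ := List.mem_map.1 h
      left
      rw [e10 g hg, e3 g hg]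
    · right
      have e11 : a i < β δ' := by
        rw [← e7]
        exact (hlt i).trans_le (by rw [e6, e7]; exact h1 δ')
      have e12 : w z (β δ') (a i) = (osc (a i) (b 0) + j + 1) • z (a i) := by
        show cd (a i) (β δ') • z (a i) = _
        rw [cd_of_lt e11, ← e7, hosc i j hj]
      refine ⟨e11, ?_⟩
      rw [e12]
      exact hji i

/-- one half -/
noncomputable def hf : UnitAddCircle := ((1 / 2 : ℝ) : UnitAddCircle)

theorem hf_add : hf + hf = 0 := by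
  unfold hf
  rw [← AddCircle.coe_add]
  norm_num

theorem hf_ne : hf ≠ 0 := by
  unfold hf
  intro h
  rw [AddCircle.coe_eq_zero_iff] at h
  obtain ⟨n, hn⟩ := h
  rw [zsmul_one] at hn
  have h2 : (2 * n : ℝ) = 1 := by linarith
  have h3 : (2 * n : ℤ) = 1 := by exact_mod_cast h2
  omega

open Classical in
/-- the shift -/
noncomputable def sh (b : Bool) : UnitAddCircle := if b then hf else 0

open Classical in
/-- the points of the two copies -/
noncomputable def v (z : W → UnitAddCircle) (b : Bool) (β : W) : W → UnitAddCircle :=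
  fun ξ => w z β ξ + if ξ < β then sh b else 0

variable {z : W → UnitAddCircle}

theorem v_of_lt {b : Bool} {β ξ : W} (h : ξ < β) : v z b β ξ = w z β ξ + sh b := by
  unfold v
  rw [if_pos h]

theorem v_of_le {b : Bool} {β ξ : W} (h : β ≤ ξ) : v z b β ξ = 0 := by
  unfold v w
  rw [if_neg (not_lt.2 h), cd_eq_zero.2 h, zero_smul, add_zero]

theorem v_congr {b : Bool} {β γ ξ : W} (h : cd ξ β = cd ξ γ) : v z b β ξ = v z b γ ξ := by
  by_cases h1 : ξ < β
  · have h2 : ξ < γ := by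
      by_contra h2
      rw [cd_eq_zero.2 (not_lt.1 h2), cd_eq_zero] at h
      exact absurd h1 (not_lt.2 h)
    rw [v_of_lt h1, v_of_lt h2]
    unfold w
    rw [h]
  · have h2 : γ ≤ ξ := by
      rw [cd_eq_zero.2 (not_lt.1 h1)] at h
      exact cd_eq_zero.1 h.symm
    rw [v_of_le (not_lt.1 h1), v_of_le h2]

theorem w_ne_zero (hz : Kr z) {β ξ : W} (h : ξ < β) : w z β ξ ≠ 0 := by
  intro h1
  rw [w_eq_zero hz] at h1
  exact absurd h (not_lt.2 h1)

theorem w_add_hf (hz : Kr z) {β ξ : W} (h : ξ < β) : w z β ξ + hf ≠ 0 := by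
  intro h1
  have h2 : (2 * cd ξ β) • z ξ = 0 := by
    have h3 : w z β ξ = hf := by
      have h4 : w z β ξ + hf = hf + hf := by rw [h1, hf_add]
      exact add_right_cancel h4
    rw [mul_smul, two_smul]
    have h5 : cd ξ β • z ξ = hf := h3
    rw [h5, hf_add]
  refine hz.ne ξ (2 * cd ξ β) ?_ h2
  have : cd ξ β ≠ 0 := by
    rw [Ne, cd_eq_zero]
    exact not_le.2 h
  omega

theorem v_ne_zero (hz : Kr z) {b : Bool} {β ξ : W} (h : ξ < β) : v z b β ξ ≠ 0 := by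
  rw [v_of_lt h]
  cases b
  · simpa [sh] using w_ne_zero hz h
  · simpa [sh] using w_add_hf hz h

theorem v_injective (hz : Kr z) (b : Bool) : Function.Injective (v z b) := by
  intro β γ h
  have key : ∀ β γ : W, v z b β = v z b γ → β ≤ γ := by
    intro β γ h
    by_contra hlt
    exact v_ne_zero hz (b := b) (not_le.1 hlt) (by rw [h, v_of_le le_rfl])
  exact le_antisymm (key β γ h) (key γ β h.symm)

/-- each of the copies is Lindelof, in a uniform form -/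
theorem lind (hz : Kr z) (b : Bool) (s : W → Finset W) (n : W → ℕ) :
    ∃ Q₀ : Set W, Q₀.Countable ∧ ∀ y, ∃ y' ∈ Q₀, ∀ ξ ∈ s y',
      ‖v z b y ξ - v z b y' ξ‖ < 1 / ((n y' : ℝ) + 1) := by
  by_contra hcon
  push Not at hcon
  have h1 : ∀ δ : W, ∃ y, ∀ y', y' < δ → ∃ ξ ∈ s y',
      1 / ((n y' : ℝ) + 1) ≤ ‖v z b y ξ - v z b y' ξ‖ := by
    intro δ
    obtain ⟨y, h⟩ := hcon (Set.Iio δ) (Om.countable_Iio δ)
    exact ⟨y, h⟩
  choose y hy using h1
  have h2 : ∀ δ, δ ≤ y δ := by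
    intro δ
    by_contra h
    obtain ⟨ξ, -, hξ⟩ := hy δ (y δ) (not_le.1 h)
    rw [sub_self, norm_zero] at hξ
    have : 0 < 1 / ((n (y δ) : ℝ) + 1) := by positivity
    linarith
  obtain ⟨δ, δ', h3, h4⟩ := K2 hz y h2 (fun δ => s (y δ)) (fun δ => n (y δ))
    (fun δ ξ => v z b (y δ) ξ - sh b)
  obtain ⟨ξ, hξ, h5⟩ := hy δ' (y δ) h3
  rcases h4 ξ hξ with h6 | ⟨h6, h7⟩
  · rw [v_congr h6, sub_self, norm_zero] at h5
    have : 0 < 1 / ((n (y δ) : ℝ) + 1) := by positivity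
    linarith
  · have h8 : v z b (y δ') ξ - v z b (y δ) ξ =
        w z (y δ') ξ - (v z b (y δ) ξ - sh b) := by
      rw [v_of_lt h6]
      abel
    rw [h8] at h5
    exact absurd h7 (not_lt.2 h5)

/-- the two copies are separated off the diagonal -/
theorem apart (hz : Kr z) (α β : W) : ∃ (ξ : W) (ε : ℝ), 0 < ε ∧ ∀ γ,
    ‖v z false γ ξ - v z false α ξ‖ < ε → ‖v z true γ ξ - v z true β ξ‖ < ε → γ ≤ ξ := by
  have main : ∀ (ξ : W) (x y : UnitAddCircle), v z false α ξ = x → v z true β ξ = y →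
      x + hf ≠ y → ∃ (ξ : W) (ε : ℝ), 0 < ε ∧ ∀ γ,
    ‖v z false γ ξ - v z false α ξ‖ < ε → ‖v z true γ ξ - v z true β ξ‖ < ε → γ ≤ ξ := by
    intro ξ x y hx hy hne
    refine ⟨ξ, ‖x + hf - y‖ / 2, ?_, ?_⟩
    · have : 0 < ‖x + hf - y‖ := norm_pos_iff.2 (sub_ne_zero.2 hne)
      linarith
    · intro γ h1 h2
      by_contra h3
      have h3 := not_le.1 h3
      rw [hx, v_of_lt h3] at h1
      rw [hy, v_of_lt h3] at h2
      simp only [sh, Bool.false_eq_true, if_false, add_zero, if_true] at h1 h2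
      have h4 : x + hf - y = (w z γ ξ + hf - y) - (w z γ ξ - x) := by abel
      have h5 := norm_sub_le (w z γ ξ + hf - y) (w z γ ξ - x)
      rw [← h4] at h5
      linarith
  rcases lt_trichotomy α β with h | h | h
  · refine main α 0 (w z β α + hf) (v_of_le le_rfl) ?_ ?_
    · rw [v_of_lt h]
      simp [sh]
    · intro h1
      have h2 : w z β α = 0 := by
        have h3 : 0 + hf = w z β α + hf := h1
        exact (add_right_cancel h3).symm
      exact w_ne_zero hz h h2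
  · subst h
    refine main α 0 0 (v_of_le le_rfl) (v_of_le le_rfl) ?_
    rw [zero_add]
    exact hf_ne
  · refine main β (w z α β) 0 ?_ (v_of_le le_rfl) (w_add_hf hz h)
    rw [v_of_lt h]
    simp [sh]

end Pool.Agent.V11241.Roth
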